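import Mathlib
import Pool.Agent.H462R2.AP1

/-!
# Post-composition of a rational map with Moebius maps: a criterion for hyperbolicity
-/

set_option autoImplicit false

open Polynomial Filter Topology
open scoped OnePoint

namespace Pool.Agent.Y765.PC

open Pool.Agent.H762R2.Rt Pool.Agent.H462R2.AP
open Pool.Agent.Helper114.Herman Pool.Agent.Helper114.Konig

/-! ### variation of a polynomial on a disc far from its zeros -/

theorem var_mult {D : ℕ} (hD : 1 ≤ D) {r : ℝ} {κ ζ : ℂ} (hζ : ‖ζ - κ‖ ≤ r)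
    (s : Multiset ℂ) (hs : ∀ a ∈ s, 2 * D * r ≤ ‖κ - a‖) :
    (1 - 1 / (2 * D : ℝ)) ^ (Multiset.card s) * ‖(s.map (fun a => κ - a)).prod‖ ≤
        ‖(s.map (fun a => ζ - a)).prod‖ ∧
      ‖(s.map (fun a => ζ - a)).prod‖ ≤
        (1 + 1 / (2 * D : ℝ)) ^ (Multiset.card s) * ‖(s.map (fun a => κ - a)).prod‖ := by
  have hDR : (1 : ℝ) ≤ D := by exact_mod_cast hD
  have hx : 1 / (2 * D : ℝ) ≤ 1 := by
    rw [div_le_one (by positivity)]; linarith
  have hx0 : 0 < 1 / (2 * D : ℝ) := by positivity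
  induction s using Multiset.induction_on with
  | empty => simp
  | cons a s ih =>
    obtain ⟨ih1, ih2⟩ := ih (fun b hb => hs b (Multiset.mem_cons_of_mem hb))
    have ha := hs a (Multiset.mem_cons_self a s)
    rw [Multiset.card_cons, Multiset.map_cons, Multiset.map_cons, Multiset.prod_cons,
      Multiset.prod_cons, norm_mul, norm_mul, pow_succ, pow_succ]
    have hr : r ≤ 1 / (2 * D : ℝ) * ‖κ - a‖ := by
      rw [div_mul_eq_mul_div, one_mul, le_div_iff₀ (by positivity)]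
      linarith
    have e1 : κ - a = (ζ - a) - (ζ - κ) := by ring
    have e2 : ζ - a = (κ - a) + (ζ - κ) := by ring
    have h1 : ‖κ - a‖ ≤ ‖ζ - a‖ + ‖ζ - κ‖ := by
      calc ‖κ - a‖ = ‖(ζ - a) - (ζ - κ)‖ := by rw [← e1]
        _ ≤ _ := norm_sub_le _ _
    have h2 : ‖ζ - a‖ ≤ ‖κ - a‖ + ‖ζ - κ‖ := by
      calc ‖ζ - a‖ = ‖(κ - a) + (ζ - κ)‖ := by rw [← e2]
        _ ≤ _ := norm_add_le _ _
    have h3 : (1 - 1 / (2 * D : ℝ)) * ‖κ - a‖ ≤ ‖ζ - a‖ := by linarith
    have h4 : ‖ζ - a‖ ≤ (1 + 1 / (2 * D : ℝ)) * ‖κ - a‖ := by linarith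
    have h5 : 0 ≤ 1 - 1 / (2 * D : ℝ) := by linarith
    constructor
    · calc (1 - 1 / (2 * D : ℝ)) ^ (Multiset.card s) * (1 - 1 / (2 * D : ℝ)) *
            (‖κ - a‖ * ‖(s.map (fun a => κ - a)).prod‖)
          = ((1 - 1 / (2 * D : ℝ)) * ‖κ - a‖) * ((1 - 1 / (2 * D : ℝ)) ^ (Multiset.card s) *
            ‖(s.map (fun a => κ - a)).prod‖) := by ring
        _ ≤ _ := mul_le_mul h3 ih1 (by positivity) (norm_nonneg _)
    · calc ‖ζ - a‖ * ‖(s.map (fun a => ζ - a)).prod‖
          ≤ ((1 + 1 / (2 * D : ℝ)) * ‖κ - a‖) * ((1 + 1 / (2 * D : ℝ)) ^ (Multiset.card s) *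
            ‖(s.map (fun a => κ - a)).prod‖) := mul_le_mul h4 ih2 (norm_nonneg _) (by positivity)
        _ = _ := by ring

theorem var_poly {D : ℕ} (hD : 1 ≤ D) {r : ℝ} {κ ζ : ℂ} (hζ : ‖ζ - κ‖ ≤ r)
    {g : ℂ[X]} (hg : g.natDegree ≤ D) (hz : ∀ y : ℂ, ‖y - κ‖ < 2 * D * r → g.eval y ≠ 0) :
    ‖g.eval κ‖ / 2 ≤ ‖g.eval ζ‖ ∧ ‖g.eval ζ‖ ≤ 2 * ‖g.eval κ‖ := by
  have hDR : (1 : ℝ) ≤ D := by exact_mod_cast hD
  have hsp : Splits g := IsAlgClosed.splits g
  have hroots : ∀ a ∈ g.roots, 2 * D * r ≤ ‖κ - a‖ := by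
    intro a ha
    by_contra hcon
    push Not at hcon
    rw [norm_sub_rev] at hcon
    exact hz a hcon (isRoot_of_mem_roots ha)
  obtain ⟨h1, h2⟩ := var_mult hD hζ g.roots hroots
  have hcard : Multiset.card g.roots ≤ D := (card_roots' g).trans hg
  obtain ⟨x, hx⟩ : ∃ x : ℝ, x = 1 / (2 * D : ℝ) := ⟨_, rfl⟩
  rw [← hx] at h1 h2
  have hx0 : 0 < x := by rw [hx]; positivity
  have hx1 : x ≤ 1 / 2 := by
    rw [hx, div_le_div_iff₀ (by positivity) (by norm_num)]; linarith
  have hDx : (D : ℝ) * x = 1 / 2 := by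
    rw [hx]; field_simp
  have h3 : (1 : ℝ) / 2 ≤ (1 - x) ^ D := by
    have := one_add_mul_le_pow (a := -x) (by linarith) D
    have e : (1 : ℝ) + D * -x = 1 / 2 := by rw [mul_neg, hDx]; norm_num
    rw [e] at this
    rw [sub_eq_add_neg]
    exact this
  have h4 : (1 : ℝ) / 2 ≤ (1 - x) ^ Multiset.card g.roots :=
    h3.trans (pow_le_pow_of_le_one (by linarith) (by linarith) hcard)
  have h5 : (1 + x) ^ Multiset.card g.roots ≤ 2 := by
    have h6 : (1 + x) ^ Multiset.card g.roots ≤ (1 + x) ^ D :=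
      pow_le_pow_right₀ (by linarith) hcard
    have h7 : (1 + x) ^ D * (1 - x) ^ D ≤ 1 := by
      rw [← mul_pow]
      apply pow_le_one₀
      · apply mul_nonneg <;> linarith
      · nlinarith
    have h8 : 0 < (1 + x) ^ D := by positivity
    nlinarith
  have hlc := norm_nonneg g.leadingCoeff
  have hp1 := norm_nonneg (g.roots.map (fun a => κ - a)).prod
  rw [hsp.eval_eq_prod_roots κ, hsp.eval_eq_prod_roots ζ, norm_mul, norm_mul]
  constructor
  · have : ‖(g.roots.map (fun a => κ - a)).prod‖ / 2 ≤ ‖(g.roots.map (fun a => ζ - a)).prod‖ := by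
      refine le_trans ?_ h1
      nlinarith
    calc ‖g.leadingCoeff‖ * ‖(g.roots.map (fun a => κ - a)).prod‖ / 2
        = ‖g.leadingCoeff‖ * (‖(g.roots.map (fun a => κ - a)).prod‖ / 2) := by ring
      _ ≤ _ := mul_le_mul_of_nonneg_left this hlc
  · have : ‖(g.roots.map (fun a => ζ - a)).prod‖ ≤ 2 * ‖(g.roots.map (fun a => κ - a)).prod‖ := by
      refine h2.trans ?_
      nlinarith
    calc ‖g.leadingCoeff‖ * ‖(g.roots.map (fun a => ζ - a)).prod‖
        ≤ ‖g.leadingCoeff‖ * (2 * ‖(g.roots.map (fun a => κ - a)).prod‖) :=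
          mul_le_mul_of_nonneg_left this hlc
      _ = _ := by ring

/-! ### Cauchy's estimate -/

theorem cauchy_lip {h : ℂ → ℂ} (hd : ∀ y ∈ Metric.closedBall (0 : ℂ) 1, DifferentiableAt ℂ h y)
    (hb : ∀ y ∈ Metric.closedBall (0 : ℂ) 1, ‖h y‖ < 1 / 4) {x y : ℂ} (hx : ‖x‖ ≤ 1 / 2)
    (hy : ‖y‖ ≤ 1 / 2) : ‖h x - h y‖ ≤ (1 / 2) * ‖x - y‖ := by
  have hsub : ∀ c : ℂ, ‖c‖ ≤ 1 / 2 → Metric.closedBall c (1 / 2) ⊆ Metric.closedBall (0 : ℂ) 1 := by
    intro c hc w hw
    rw [Metric.mem_closedBall, dist_eq_norm] at hw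
    rw [mem_closedBall_zero_iff]
    have := norm_add_le (w - c) c
    rw [sub_add_cancel] at this
    linarith
  have hder : ∀ c ∈ Metric.closedBall (0 : ℂ) (1 / 2), ‖deriv h c‖ ≤ 1 / 2 := by
    intro c hc
    rw [mem_closedBall_zero_iff] at hc
    have h1 : DifferentiableOn ℂ h (Metric.closedBall c (1 / 2)) := fun w hw =>
      (hd w (hsub c hc hw)).differentiableWithinAt
    have h2 : DiffContOnCl ℂ h (Metric.ball c (1 / 2)) := h1.diffContOnCl_ball subset_rfl
    have h3 := Complex.norm_deriv_le_of_forall_mem_sphere_norm_le (C := 1 / 4) (by norm_num) h2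
      (fun w hw => (hb w (hsub c hc (Metric.sphere_subset_closedBall hw))).le)
    refine h3.trans ?_
    norm_num
  have hs1 : Metric.closedBall (0 : ℂ) (1 / 2) ⊆ Metric.closedBall (0 : ℂ) 1 :=
    Metric.closedBall_subset_closedBall (by norm_num)
  exact (convex_closedBall (0 : ℂ) (1 / 2)).norm_image_sub_le_of_norm_deriv_le
    (fun w hw => hd w (hs1 hw)) hder (by rwa [mem_closedBall_zero_iff])
    (by rwa [mem_closedBall_zero_iff])

/-! ### a trapping disc -/

/-- If `f` maps a disc of a chart into a much smaller concentric disc, points of the half disc are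
attracted by a sink. -/
theorem trap {f : OnePoint ℂ → OnePoint ℂ} (hf : Continuous f) (i : Bool) {κ : ℂ} {r : ℝ}
    (hr : 0 < r) {G : ℂ → ℂ} (hG : ∀ x, ‖x - κ‖ ≤ r → DifferentiableAt ℂ G x)
    (hGb : ∀ x, ‖x - κ‖ ≤ r → ‖G x - κ‖ < r / 4)
    (hconj : ∀ x, ‖x - κ‖ ≤ r → f (ch i x) = ch i (G x)) {x : ℂ} (hx : ‖x - κ‖ ≤ r / 2) :
    Sinks f (ch i x) := by
  have hrc : (r : ℂ) ≠ 0 := by exact_mod_cast hr.ne'
  have hnr : ‖(r : ℂ)‖ = r := by rw [Complex.norm_real, Real.norm_eq_abs, abs_of_pos hr]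
  obtain ⟨h, hh⟩ : ∃ h : ℂ → ℂ, h = fun y => (G (κ + r * y) - κ) / r := ⟨_, rfl⟩
  have hin : ∀ y : ℂ, ‖y‖ ≤ 1 → ‖(κ + r * y) - κ‖ ≤ r := by
    intro y hy
    rw [add_sub_cancel_left, norm_mul, hnr]
    nlinarith
  have hhb : ∀ y ∈ Metric.closedBall (0 : ℂ) 1, ‖h y‖ < 1 / 4 := by
    intro y hy
    rw [mem_closedBall_zero_iff] at hy
    have := hGb _ (hin y hy)
    rw [hh]
    simp only
    rw [norm_div, hnr, div_lt_iff₀ hr]
    linarith
  have hhd : ∀ y ∈ Metric.closedBall (0 : ℂ) 1, DifferentiableAt ℂ h y := by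
    intro y hy
    rw [mem_closedBall_zero_iff] at hy
    rw [hh]
    have h1 : DifferentiableAt ℂ (fun y : ℂ => κ + r * y) y := by fun_prop
    have h2 := (hG _ (hin y hy)).comp y h1
    exact (h2.sub_const κ).div_const _
  have hlip := fun x y => @cauchy_lip h hhd hhb x y
  have hψ : ∀ y : ℂ, ‖y‖ ≤ 1 / 2 → f (ch i (κ + r * y)) = ch i (κ + r * h y) := by
    intro y hy
    rw [hconj _ (hin y (by linarith))]
    congr 1
    rw [hh]
    field_simp
    ring
  have hop : IsOpenMap (fun y : ℂ => ch i (κ + r * y)) := by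
    have h1 : IsOpenMap (fun y : ℂ => κ + r * y) := by
      have := ((Homeomorph.mulLeft₀ (r : ℂ) hrc).trans (Homeomorph.addLeft κ)).isOpenMap
      exact this
    exact (isOpenMap_ch i).comp h1
  have hco : Continuous (fun y : ℂ => ch i (κ + r * y)) :=
    (continuous_ch i).comp (by fun_prop)
  have e1 : x = κ + r * ((x - κ) / r) := by
    rw [mul_div_cancel₀ _ hrc]; ring
  have hx' : ‖(x - κ) / r‖ ≤ 1 / 2 := by
    rw [norm_div, hnr, div_le_iff₀ hr]
    linarith
  have key : Sinks f (ch i (κ + r * ((x - κ) / r))) :=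
    two_charts' hf (ψ := fun _ y => ch i (κ + r * y)) (σ := id) (τ := fun _ => 1)
    (h := fun _ => h) (r := 1 / 2) (by norm_num) (fun _ => one_pos) (fun _ => hco) (fun _ => hop)
    (fun _ y hy => by rw [Function.iterate_one]; exact hψ y hy)
    (fun _ y hy => (hhb y (by rw [mem_closedBall_zero_iff]; linarith)).trans (by norm_num))
    (fun _ x y hx hy => hlip x y hx hy) (i := i) hx'
  rwa [← e1] at key

/-! ### pencils -/

section pencil

variable {P Q : ℂ[X]} {D : ℕ} {a b c e : ℂ}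

theorem hom_lin (P Q : ℂ[X]) (D : ℕ) (a b u v : ℂ) :
    hom (C a * P + C b * Q) D u v = a * hom P D u v + b * hom Q D u v := by
  unfold hom
  rw [Finset.mul_sum, Finset.mul_sum, ← Finset.sum_add_distrib]
  refine Finset.sum_congr rfl fun k _ => ?_
  rw [coeff_add, coeff_C_mul, coeff_C_mul]
  ring

theorem wro_lin (P Q : ℂ[X]) (a b c e : ℂ) :
    wro (C a * P + C b * Q) (C c * P + C e * Q) = C (a * e - b * c) * wro P Q := by
  unfold wro
  simp only [derivative_add, derivative_mul, derivative_C, zero_mul, zero_add, map_sub, map_mul]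
  ring

theorem cop_lin (h : IsCoprime P Q) (hdet : a * e - b * c ≠ 0) :
    IsCoprime (C a * P + C b * Q) (C c * P + C e * Q) := by
  obtain ⟨u, v, huv⟩ := h
  refine ⟨C (a * e - b * c)⁻¹ * (u * C e - v * C c), C (a * e - b * c)⁻¹ * (v * C a - u * C b), ?_⟩
  have h1 : (C (a * e - b * c)⁻¹ * (C a * C e - C b * C c) : ℂ[X]) = 1 := by
    rw [← C_mul, ← C_mul, ← C_sub, ← C_mul, inv_mul_cancel₀ hdet, C_1]
  linear_combination (C (a * e - b * c)⁻¹ * (C a * C e - C b * C c) : ℂ[X]) * huv + h1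

theorem deg_lin (hD : 1 ≤ D) (hdeg : D = max P.natDegree Q.natDegree)
    (hdet : a * e - b * c ≠ 0) :
    D = max (C a * P + C b * Q).natDegree (C c * P + C e * Q).natDegree := by
  have hP : P.natDegree ≤ D := hdeg ▸ le_max_left _ _
  have hQ : Q.natDegree ≤ D := hdeg ▸ le_max_right _ _
  have hle : ∀ s t : ℂ, (C s * P + C t * Q).natDegree ≤ D := by
    intro s t
    exact (natDegree_add_le _ _).trans (max_le ((natDegree_C_mul_le _ _).trans hP)
      ((natDegree_C_mul_le _ _).trans hQ))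
  have h1 := hle a b
  have h2 := hle c e
  by_contra hcon
  have h3 : (C a * P + C b * Q).natDegree < D := by omega
  have h4 : (C c * P + C e * Q).natDegree < D := by omega
  have h5 := coeff_eq_zero_of_natDegree_lt h3
  have h6 := coeff_eq_zero_of_natDegree_lt h4
  rw [coeff_add, coeff_C_mul, coeff_C_mul] at h5 h6
  have h7 : (a * e - b * c) * P.coeff D = 0 := by linear_combination e * h5 - b * h6
  have h8 : (a * e - b * c) * Q.coeff D = 0 := by linear_combination a * h6 - c * h5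
  have h9 : P.coeff D = 0 := (mul_eq_zero.1 h7).resolve_left hdet
  have h10 : Q.coeff D = 0 := (mul_eq_zero.1 h8).resolve_left hdet
  rcases le_total P.natDegree Q.natDegree with hl | hl
  · have h11 : D = Q.natDegree := by rw [hdeg, max_eq_right hl]
    rw [h11, coeff_natDegree, leadingCoeff_eq_zero] at h10
    rw [h10, natDegree_zero] at h11
    omega
  · have h11 : D = P.natDegree := by rw [hdeg, max_eq_left hl]
    rw [h11, coeff_natDegree, leadingCoeff_eq_zero] at h9
    rw [h9, natDegree_zero] at h11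
    omega

theorem ne_zero_of_cop (hD : 1 ≤ D) (hdeg : D = max P.natDegree Q.natDegree)
    (h : IsCoprime P Q) : P ≠ 0 ∧ Q ≠ 0 := by
  constructor
  · rintro rfl
    have hu : IsUnit Q := isCoprime_zero_left.1 h
    rw [natDegree_zero, natDegree_eq_zero_of_isUnit hu] at hdeg
    simp at hdeg
    omega
  · rintro rfl
    have hu : IsUnit P := isCoprime_zero_right.1 h
    rw [natDegree_zero, natDegree_eq_zero_of_isUnit hu] at hdeg
    simp at hdeg
    omega

/-- a point where the Wronskian does not vanish is not critical -/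
theorem locinj {f : OnePoint ℂ → OnePoint ℂ} (hf : IsRat f P Q) (hD : 1 ≤ D)
    (hdeg : D = max P.natDegree Q.natDegree) {z : ℂ} (hz : (wro P Q).eval z ≠ 0) :
    ∃ U ∈ 𝓝 (z : OnePoint ℂ), Set.InjOn f U := by
  have hev : ∀ x : ℂ, f (x : OnePoint ℂ) = pr (P.eval x) (Q.eval x) := by
    intro x
    have hP : P.natDegree ≤ D := hdeg ▸ le_max_left _ _
    have hQ : Q.natDegree ≤ D := hdeg ▸ le_max_right _ _
    rw [← pr_one, rat_formula hf hdeg hD (Or.inr one_ne_zero), hom_ne hP one_ne_zero,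
      hom_ne hQ one_ne_zero, one_pow, one_mul, one_mul, div_one]
  have hw : (derivative P).eval z * Q.eval z - P.eval z * (derivative Q).eval z ≠ 0 := by
    intro h
    apply hz
    unfold wro
    rw [eval_sub, eval_mul, eval_mul]
    exact h
  have gen : ∀ (A B : ℂ[X]) (g : OnePoint ℂ → OnePoint ℂ),
      (∀ x : ℂ, g (x : OnePoint ℂ) = pr (A.eval x) (B.eval x)) → B.eval z ≠ 0 →
      (derivative A).eval z * B.eval z - A.eval z * (derivative B).eval z ≠ 0 →
      ∃ U ∈ 𝓝 (z : OnePoint ℂ), Set.InjOn g U := by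
    intro A B g hg hB hAB
    have hder := (A.hasStrictDerivAt z).fun_div (B.hasStrictDerivAt z) hB
    obtain ⟨U, hU, hinj⟩ := injOn_of_deriv hder (div_ne_zero hAB (pow_ne_zero _ hB))
    have hUQ : {x : ℂ | B.eval x ≠ 0} ∈ 𝓝 z :=
      (isOpen_ne_fun B.continuous continuous_const).mem_nhds hB
    refine ⟨(fun x : ℂ => (x : OnePoint ℂ)) '' (U ∩ {x : ℂ | B.eval x ≠ 0}), ?_, ?_⟩
    · exact (OnePoint.isOpenEmbedding_coe (X := ℂ)).isOpenMap.image_mem_nhds
        (inter_mem hU hUQ)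
    · rintro _ ⟨x, ⟨hx, hxQ⟩, rfl⟩ _ ⟨y, ⟨hy, hyQ⟩, rfl⟩ hxy
      simp only at hxy
      rw [hg x, hg y, pr_ne hxQ, pr_ne hyQ, OnePoint.coe_eq_coe] at hxy
      rw [hinj hx hy hxy]
  by_cases hQz : Q.eval z = 0
  · have hPz : P.eval z ≠ 0 := by
      intro h
      rw [h, hQz, mul_zero, zero_mul, sub_zero] at hw
      exact hw rfl
    have hnb : ∀ x : ℂ, P.eval x ≠ 0 ∨ Q.eval x ≠ 0 := by
      intro x
      by_contra hcon
      push Not at hcon
      obtain ⟨u, v, huv⟩ := hf.cop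
      have := congrArg (eval x) huv
      rw [eval_add, eval_mul, eval_mul, hcon.1, hcon.2, mul_zero, mul_zero, add_zero,
        eval_one] at this
      exact zero_ne_one this
    obtain ⟨U, hU, hinj⟩ := gen Q P (fun x => sinv (f x)) (fun x => by
      rw [hev, sinv_pr (hnb x)]) hPz (by
        intro h
        apply hw
        linear_combination -h)
    exact ⟨U, hU, fun x hx y hy hxy => hinj hx hy (by simp only; rw [hxy])⟩
  · exact gen P Q f hev hQz hw

/-- the polynomial `P` in the chart `i` -/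
noncomputable def rv (i : Bool) (D : ℕ) (P : ℂ[X]) : ℂ[X] := if i then P.reflect D else P

/-- the homogeneous coordinates of the point with coordinate `x` in the chart `i` -/
def cu (i : Bool) (x : ℂ) : ℂ := if i then 1 else x

/-- the homogeneous coordinates of the point with coordinate `x` in the chart `i` -/
def cv (i : Bool) (x : ℂ) : ℂ := if i then x else 1

theorem hom_reflect (h : P.natDegree ≤ D) (x : ℂ) : hom P D 1 x = (P.reflect D).eval x := by
  have h1 : (P.reflect D).natDegree ≤ D := by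
    rw [natDegree_le_iff_coeff_eq_zero]
    intro k hk
    rw [coeff_reflect, revAt_eq_self_of_lt hk]
    exact coeff_eq_zero_of_natDegree_lt (lt_of_le_of_lt h hk)
  rw [eval_eq_sum_range' (Nat.lt_succ_of_le h1), ← Finset.sum_range_reflect, hom]
  refine Finset.sum_congr rfl fun k hk => ?_
  have hk' : k ≤ D := Nat.lt_succ_iff.1 (Finset.mem_range.1 hk)
  have e1 : D + 1 - 1 - k = D - k := by omega
  rw [Nat.succ_eq_add_one, e1, coeff_reflect, revAt_le (Nat.sub_le D k), Nat.sub_sub_self hk',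
    one_pow, mul_one]

theorem rv_natDegree (i : Bool) (h : P.natDegree ≤ D) : (rv i D P).natDegree ≤ D := by
  cases i
  · simpa [rv] using h
  · simp only [rv, if_true]
    rw [natDegree_le_iff_coeff_eq_zero]
    intro k hk
    rw [coeff_reflect, revAt_eq_self_of_lt hk]
    exact coeff_eq_zero_of_natDegree_lt (lt_of_le_of_lt h hk)

theorem hom_rv (i : Bool) (h : P.natDegree ≤ D) (x : ℂ) :
    hom P D (cu i x) (cv i x) = (rv i D P).eval x := by
  cases i
  · simp only [cu, cv, rv, Bool.false_eq_true, if_false]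
    rw [hom_ne h one_ne_zero, one_pow, one_mul, div_one]
  · simp only [cu, cv, rv, if_true]
    exact hom_reflect h x

theorem cuv_ne (i : Bool) (x : ℂ) : cu i x ≠ 0 ∨ cv i x ≠ 0 := by
  cases i <;> simp [cu, cv]

theorem ch_pr (i : Bool) (x : ℂ) : ch i x = pr (cu i x) (cv i x) := by
  cases i
  · simp [ch, cu, cv, pr_one]
  · simp only [ch, cu, cv, if_true]
    rw [← pr_one x, sinv_pr (Or.inr one_ne_zero)]

/-- the quotient of two numbers in the chart `i` -/
theorem pr_ch (i : Bool) {x y : ℂ} (hy : y ≠ 0) :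
    pr (if i then y else x) (if i then x else y) = ch i (x / y) := by
  cases i
  · simp only [Bool.false_eq_true, if_false]
    rw [pr_ne hy]
    simp [ch]
  · simp only [if_true]
    rw [ch]
    simp only [if_true]
    rw [← pr_ne hy, sinv_pr (Or.inr hy)]

end pencil

/-- The criterion. -/
theorem crit {P Q : ℂ[X]} {D : ℕ} (hD : 1 ≤ D) (hdeg : D = max P.natDegree Q.natDegree)
    (hcop : IsCoprime P Q) (i : Bool) {a b c e : ℂ} (hc : c ≠ 0) (hdet : a * e - b * c ≠ 0)
    {ρ r : ℝ} (hρ : 0 < ρ) (hr : 0 < r) (h16 : 16 * ‖a * e - b * c‖ < ρ * r)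
    (h1 : ∀ z : ℂ, (wro P Q).eval z = 0 → ρ * ‖Q.eval z‖ ≤ ‖c * P.eval z + e * Q.eval z‖)
    (h1' : ρ * ‖Q.coeff D‖ ≤ ‖c * P.coeff D + e * Q.coeff D‖)
    (h2 : ρ * ‖(rv i D Q).eval (a / c)‖ ≤
      ‖c * (rv i D P).eval (a / c) + e * (rv i D Q).eval (a / c)‖)
    (h3 : ∀ ζ : ℂ, ‖c * ζ - a‖ < 2 * D * r → (rv i D Q).eval ζ ≠ 0 ∧
      c * (rv i D P).eval ζ + e * (rv i D Q).eval ζ ≠ 0) :
    Hyp (if i then C c * P + C e * Q else C a * P + C b * Q)
      (if i then C a * P + C b * Q else C c * P + C e * Q) := by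
  have hP : P.natDegree ≤ D := hdeg ▸ le_max_left _ _
  have hQ : Q.natDegree ≤ D := hdeg ▸ le_max_right _ _
  have hDR : (1 : ℝ) ≤ D := by exact_mod_cast hD
  have hcn : 0 < ‖c‖ := norm_pos_iff.2 hc
  obtain ⟨N1, hN1⟩ : ∃ N1 : ℂ[X], N1 = if i then C c * P + C e * Q else C a * P + C b * Q :=
    ⟨_, rfl⟩
  obtain ⟨N2, hN2⟩ : ∃ N2 : ℂ[X], N2 = if i then C a * P + C b * Q else C c * P + C e * Q :=
    ⟨_, rfl⟩
  rw [← hN1, ← hN2]
  have hdet' : c * b - e * a ≠ 0 := by
    intro h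
    apply hdet
    linear_combination -h
  have hNcop : IsCoprime N1 N2 := by
    cases i
    · rw [hN1, hN2]; exact cop_lin hcop hdet
    · rw [hN1, hN2]; exact cop_lin hcop hdet'
  have hNdeg : D = max N1.natDegree N2.natDegree := by
    cases i
    · rw [hN1, hN2]; exact deg_lin hD hdeg hdet
    · rw [hN1, hN2]; exact deg_lin hD hdeg hdet'
  have hN20 : N2 ≠ 0 := (ne_zero_of_cop hD hNdeg hNcop).2
  have hNw : ∀ z : ℂ, (wro N1 N2).eval z = 0 → (wro P Q).eval z = 0 := by
    intro z hz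
    cases i
    · simp only [Bool.false_eq_true, if_false] at hN1 hN2
      rw [hN1, hN2, wro_lin, eval_mul, eval_C] at hz
      exact (mul_eq_zero.1 hz).resolve_left hdet
    · simp only [if_true] at hN1 hN2
      rw [hN1, hN2, wro_lin, eval_mul, eval_C] at hz
      exact (mul_eq_zero.1 hz).resolve_left hdet'
  obtain ⟨f, hf, -⟩ := exists_isRat hNcop hN20
  -- the formula
  have hform : ∀ u v : ℂ, (u ≠ 0 ∨ v ≠ 0) → c * hom P D u v + e * hom Q D u v ≠ 0 →
      f (pr u v) = ch i (a / c + (b * c - a * e) / c *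
        (hom Q D u v / (c * hom P D u v + e * hom Q D u v))) := by
    intro u v huv hm
    have e1 : a / c + (b * c - a * e) / c *
        (hom Q D u v / (c * hom P D u v + e * hom Q D u v)) =
        (a * hom P D u v + b * hom Q D u v) / (c * hom P D u v + e * hom Q D u v) := by
      field_simp
      ring
    rw [e1, ← pr_ch i hm, rat_formula hf hNdeg hD huv, hN1, hN2]
    cases i
    · simp only [Bool.false_eq_true, if_false, hom_lin]
    · simp only [if_true, hom_lin]
  have hnb : ∀ u v : ℂ, (u ≠ 0 ∨ v ≠ 0) → ρ * ‖hom Q D u v‖ ≤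
      ‖c * hom P D u v + e * hom Q D u v‖ → c * hom P D u v + e * hom Q D u v ≠ 0 := by
    intro u v huv h h0
    rw [h0, norm_zero] at h
    have hq : hom Q D u v = 0 := by
      have : ‖hom Q D u v‖ ≤ 0 := by
        by_contra hcon
        push Not at hcon
        have := mul_pos hρ hcon
        linarith
      exact norm_le_zero_iff.1 this
    rw [hq, mul_zero, add_zero] at h0
    rcases hom_not_both hcop hdeg huv hD with h5 | h5
    · exact h5 ((mul_eq_zero.1 h0).resolve_left hc)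
    · exact h5 hq
  -- constants
  obtain ⟨R, hR⟩ : ∃ R : ℝ, R = r / ‖c‖ := ⟨_, rfl⟩
  have hR0 : 0 < R := by rw [hR]; positivity
  have hdetn : ‖b * c - a * e‖ = ‖a * e - b * c‖ := norm_sub_rev _ _
  have h16' : 16 * (‖b * c - a * e‖ / ‖c‖) < ρ * R := by
    rw [hdetn, hR, mul_div_assoc', mul_div_assoc']
    exact div_lt_div_of_pos_right h16 hcn
  -- the small values
  have hval : ∀ w K : ℝ, 0 ≤ K → w ≤ K / ρ → ‖b * c - a * e‖ / ‖c‖ * w ≤ K * R / 16 := by
    intro w K hK hw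
    have h5 : 0 ≤ ‖b * c - a * e‖ / ‖c‖ := by positivity
    calc ‖b * c - a * e‖ / ‖c‖ * w ≤ ‖b * c - a * e‖ / ‖c‖ * (K / ρ) :=
          mul_le_mul_of_nonneg_left hw h5
      _ = (16 * (‖b * c - a * e‖ / ‖c‖)) * (K / ρ / 16) := by ring
      _ ≤ (ρ * R) * (K / ρ / 16) := mul_le_mul_of_nonneg_right h16'.le (by positivity)
      _ = K * R / 16 := by field_simp
  -- points of the trapping disc
  have htrap : ∀ x : ℂ, ‖x - a / c‖ ≤ R / 2 → Sinks f (ch i x) := by
    obtain ⟨m, hm⟩ : ∃ m : ℂ[X], m = C c * rv i D P + C e * rv i D Q := ⟨_, rfl⟩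
    have hmev : ∀ x : ℂ, m.eval x = c * (rv i D P).eval x + e * (rv i D Q).eval x := by
      intro x; rw [hm]; simp
    have hmdeg : m.natDegree ≤ D := by
      rw [hm]
      exact (natDegree_add_le _ _).trans (max_le
        ((natDegree_C_mul_le _ _).trans (rv_natDegree i hP))
        ((natDegree_C_mul_le _ _).trans (rv_natDegree i hQ)))
    have hzf : ∀ y : ℂ, ‖y - a / c‖ < 2 * D * R → (rv i D Q).eval y ≠ 0 ∧ m.eval y ≠ 0 := by
      intro y hy
      rw [hmev]
      apply h3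
      have e2 : c * y - a = c * (y - a / c) := by field_simp
      rw [e2, norm_mul]
      rw [hR] at hy
      calc ‖c‖ * ‖y - a / c‖ < ‖c‖ * (2 * D * (r / ‖c‖)) := mul_lt_mul_of_pos_left hy hcn
        _ = 2 * D * r := by field_simp
    have hQv := fun (ζ : ℂ) (h : ‖ζ - a / c‖ ≤ R) =>
      var_poly hD h (rv_natDegree i hQ) (fun y hy => (hzf y hy).1)
    have hmv := fun (ζ : ℂ) (h : ‖ζ - a / c‖ ≤ R) =>
      var_poly hD h hmdeg (fun y hy => (hzf y hy).2)
    have hin : ∀ x : ℂ, ‖x - a / c‖ ≤ R → ‖x - a / c‖ < 2 * D * R := by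
      intro x hx
      nlinarith
    obtain ⟨G, hG⟩ : ∃ G : ℂ → ℂ, G = fun x => a / c + (b * c - a * e) / c *
      ((rv i D Q).eval x / m.eval x) := ⟨_, rfl⟩
    have hGd : ∀ x : ℂ, ‖x - a / c‖ ≤ R → DifferentiableAt ℂ G x := by
      intro x hx
      rw [hG]
      have h6 := ((rv i D Q).differentiable x).fun_div (m.differentiable x) (hzf x (hin x hx)).2
      exact (h6.const_mul _).const_add _
    have hGb : ∀ x : ℂ, ‖x - a / c‖ ≤ R → ‖G x - a / c‖ < R / 4 := by
      intro x hx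
      rw [hG]
      simp only
      rw [add_sub_cancel_left, norm_mul, norm_div, norm_div]
      have hm0 : 0 < ‖m.eval x‖ := norm_pos_iff.2 (hzf x (hin x hx)).2
      have hw : ‖(rv i D Q).eval x‖ / ‖m.eval x‖ ≤ 4 / ρ := by
        rw [div_le_div_iff₀ hm0 hρ]
        have k1 := (hQv x hx).2
        have k2 := (hmv x hx).1
        have k3 := h2
        rw [← hmev] at k3
        nlinarith
      have h6 : ‖b * c - a * e‖ / ‖c‖ * (‖(rv i D Q).eval x‖ / ‖m.eval x‖) ≤
          ‖b * c - a * e‖ / ‖c‖ * (4 / ρ) := mul_le_mul_of_nonneg_left hw (by positivity)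
      have h7 : ‖b * c - a * e‖ / ‖c‖ * (4 / ρ) =
          (16 * (‖b * c - a * e‖ / ‖c‖)) * (1 / (4 * ρ)) := by
        field_simp
        norm_num
      have h8 : (16 * (‖b * c - a * e‖ / ‖c‖)) * (1 / (4 * ρ)) < (ρ * R) * (1 / (4 * ρ)) :=
        mul_lt_mul_of_pos_right h16' (by positivity)
      have h9 : (ρ * R) * (1 / (4 * ρ)) = R / 4 := by field_simp
      rw [h7] at h6
      rw [h9] at h8
      exact lt_of_le_of_lt h6 h8
    intro x hx
    refine trap hf.cont i hR0 hGd hGb ?_ hx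
    intro x hx
    have h6 : c * hom P D (cu i x) (cv i x) + e * hom Q D (cu i x) (cv i x) ≠ 0 := by
      rw [hom_rv i hP, hom_rv i hQ, ← hmev]
      exact (hzf x (hin x hx)).2
    rw [ch_pr i x, hform _ _ (cuv_ne i x) h6, hG]
    simp only
    rw [hom_rv i hP, hom_rv i hQ, hmev]
  -- points mapped into the trapping disc
  have hgo : ∀ u v : ℂ, (u ≠ 0 ∨ v ≠ 0) → ρ * ‖hom Q D u v‖ ≤
      ‖c * hom P D u v + e * hom Q D u v‖ → Sinks f (pr u v) := by
    intro u v huv h
    have hm := hnb u v huv h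
    apply sinks_of_image hf.cont
    rw [hform u v huv hm]
    apply htrap
    rw [add_sub_cancel_left, norm_mul, norm_div, norm_div]
    have hm0 : 0 < ‖c * hom P D u v + e * hom Q D u v‖ := norm_pos_iff.2 hm
    have hw : ‖hom Q D u v‖ / ‖c * hom P D u v + e * hom Q D u v‖ ≤ 1 / ρ := by
      rw [div_le_div_iff₀ hm0 hρ]
      linarith
    refine (hval _ 1 zero_le_one hw).trans ?_
    linarith
  refine ⟨hNcop, f, hf.cont, hf.eval, ?_⟩
  intro p hp
  induction p using OnePoint.rec with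
  | infty =>
    have := hgo 1 0 (Or.inl one_ne_zero) (by
      rw [hom_zero, hom_zero, one_pow, mul_one, mul_one]
      exact h1')
    rwa [pr_zero] at this
  | coe z =>
    have hz : (wro P Q).eval z = 0 := by
      by_contra hcon
      exact hp (locinj hf hD hNdeg fun h => hcon (hNw z h))
    have := hgo z 1 (Or.inr one_ne_zero) (by
      rw [hom_ne hP one_ne_zero, hom_ne hQ one_ne_zero, one_pow, one_mul, one_mul, div_one]
      exact h1 z hz)
    rwa [pr_one] at this

end Pool.Agent.Y765.PC
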