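import Mathlib

/-!
# Post-composition of a rational map with Moebius maps: the volume of the bad set
-/

set_option autoImplicit false

open Polynomial MeasureTheory

namespace Pool.Agent.Y765.PC

theorem vol_cb (x : ℂ) {R : ℝ} (hR : 0 ≤ R) :
    volume (Metric.closedBall x R) = ENNReal.ofReal (Real.pi * R ^ 2) := by
  rw [Complex.volume_closedBall, mul_comm, ENNReal.ofReal_mul Real.pi_pos.le,
    ENNReal.ofReal_pow hR]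
  congr 1
  rw [← NNReal.coe_real_pi, ENNReal.ofReal_coe_nnreal]

theorem vol_lin {A B c : ℂ} (hc : c ≠ 0) (hAB : A ≠ 0 ∨ B ≠ 0) {ρ : ℝ} (hρ : 0 ≤ ρ) :
    volume {e : ℂ | ‖c * A + e * B‖ ≤ ρ * ‖B‖} ≤ ENNReal.ofReal (Real.pi * ρ ^ 2) := by
  by_cases hB : B = 0
  · have hA : A ≠ 0 := hAB.resolve_right (not_not.2 hB)
    have : {e : ℂ | ‖c * A + e * B‖ ≤ ρ * ‖B‖} = ∅ := by
      ext e
      simp only [Set.mem_ofPred_eq, Set.mem_empty_iff_false, iff_false, not_le]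
      rw [hB, norm_zero, mul_zero, mul_zero, add_zero]
      exact norm_pos_iff.2 (mul_ne_zero hc hA)
    rw [this, measure_empty]
    exact zero_le
  · rw [← vol_cb (-(c * A / B)) hρ]
    apply measure_mono
    intro e he
    simp only [Set.mem_ofPred_eq] at he
    rw [Metric.mem_closedBall, dist_eq_norm]
    have e1 : e - -(c * A / B) = (c * A + e * B) / B := by field_simp; ring
    rw [e1, norm_div, div_le_iff₀ (norm_pos_iff.2 hB)]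
    exact he

theorem vol_roots {g : ℂ[X]} (hg : g ≠ 0) {D : ℕ} (hD : g.natDegree ≤ D) (c : ℂ) {s : ℝ}
    (hs : 0 ≤ s) :
    volume {a : ℂ | ∃ ζ : ℂ, ‖c * ζ - a‖ ≤ s ∧ g.eval ζ = 0} ≤
      ENNReal.ofReal (D * (Real.pi * s ^ 2)) := by
  have hsub : {a : ℂ | ∃ ζ : ℂ, ‖c * ζ - a‖ ≤ s ∧ g.eval ζ = 0} ⊆
      ⋃ ζ ∈ g.roots.toFinset, Metric.closedBall (c * ζ) s := by
    rintro a ⟨ζ, h1, h2⟩
    rw [Set.mem_iUnion₂]
    refine ⟨ζ, ?_, ?_⟩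
    · rw [Multiset.mem_toFinset, mem_roots hg]
      exact h2
    · rw [Metric.mem_closedBall, dist_eq_norm, norm_sub_rev]
      exact h1
  refine (measure_mono hsub).trans ((measure_biUnion_finset_le _ _).trans ?_)
  simp only [vol_cb _ hs]
  rw [Finset.sum_const, nsmul_eq_mul, ← ENNReal.ofReal_natCast, ← ENNReal.ofReal_mul (by positivity)]
  apply ENNReal.ofReal_le_ofReal
  apply mul_le_mul_of_nonneg_right _ (by positivity)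
  have h1 : g.roots.toFinset.card ≤ D :=
    (Multiset.toFinset_card_le _).trans ((card_roots' g).trans hD)
  exact_mod_cast h1

/-- projections of closed sets are Borel -/
theorem measurable_proj {X : Type*} [TopologicalSpace X] [T2Space X] [SigmaCompactSpace X]
    [MeasurableSpace X] [BorelSpace X] {W : Set (X × ℂ)} (hW : IsClosed W) :
    MeasurableSet (Prod.fst '' W) := by
  have h1 : IsSigmaCompact W :=
    isSigmaCompact_univ.of_isClosed_subset hW (Set.subset_univ _)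
  obtain ⟨K, hK, hU⟩ := h1.image continuous_fst
  rw [← hU]
  exact MeasurableSet.iUnion fun n => (hK n).isClosed.measurableSet

/-- the bad set: `x = (c, (e, a))` -/
def Bad (F : Finset (ℂ × ℂ)) (p q : ℂ[X]) (ρ s : ℝ) : Set (ℂ × (ℂ × ℂ)) :=
  {x | (∃ y ∈ F, ‖x.1 * y.1 + x.2.1 * y.2‖ ≤ ρ * ‖y.2‖) ∨
    ‖x.1 * p.eval (x.2.2 / x.1) + x.2.1 * q.eval (x.2.2 / x.1)‖ ≤ ρ * ‖q.eval (x.2.2 / x.1)‖ ∨
    (∃ ζ : ℂ, ‖x.1 * ζ - x.2.2‖ ≤ s ∧ q.eval ζ = 0) ∨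
    ∃ ζ : ℂ, ‖x.1 * ζ - x.2.2‖ ≤ s ∧ x.1 * p.eval ζ + x.2.1 * q.eval ζ = 0}

theorem measurable_B4 (p q : ℂ[X]) (s : ℝ) : MeasurableSet {x : ℂ × (ℂ × ℂ) | ∃ ζ : ℂ,
    ‖x.1 * ζ - x.2.2‖ ≤ s ∧ x.1 * p.eval ζ + x.2.1 * q.eval ζ = 0} := by
  have hW : IsClosed {w : (ℂ × (ℂ × ℂ)) × ℂ | ‖w.1.1 * w.2 - w.1.2.2‖ ≤ s ∧
      w.1.1 * p.eval w.2 + w.1.2.1 * q.eval w.2 = 0} := by
    have hp : Continuous fun w : (ℂ × (ℂ × ℂ)) × ℂ => p.eval w.2 := p.continuous.comp continuous_snd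
    have hq : Continuous fun w : (ℂ × (ℂ × ℂ)) × ℂ => q.eval w.2 := q.continuous.comp continuous_snd
    have k1 : IsClosed {w : (ℂ × (ℂ × ℂ)) × ℂ | ‖w.1.1 * w.2 - w.1.2.2‖ ≤ s} :=
      isClosed_le (by fun_prop) continuous_const
    have k2 : IsClosed {w : (ℂ × (ℂ × ℂ)) × ℂ | w.1.1 * p.eval w.2 + w.1.2.1 * q.eval w.2 = 0} :=
      isClosed_eq (by fun_prop) continuous_const
    exact k1.inter k2
  have := measurable_proj hW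
  convert this using 1
  ext x
  constructor
  · rintro ⟨ζ, h⟩
    exact ⟨(x, ζ), h, rfl⟩
  · rintro ⟨⟨y, ζ⟩, h, rfl⟩
    exact ⟨ζ, h⟩

theorem measurable_B3 (q : ℂ[X]) (s : ℝ) : MeasurableSet {x : ℂ × (ℂ × ℂ) | ∃ ζ : ℂ,
    ‖x.1 * ζ - x.2.2‖ ≤ s ∧ q.eval ζ = 0} := by
  have hW : IsClosed {w : (ℂ × (ℂ × ℂ)) × ℂ | ‖w.1.1 * w.2 - w.1.2.2‖ ≤ s ∧
      q.eval w.2 = 0} := by
    have hq : Continuous fun w : (ℂ × (ℂ × ℂ)) × ℂ => q.eval w.2 := q.continuous.comp continuous_snd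
    have k1 : IsClosed {w : (ℂ × (ℂ × ℂ)) × ℂ | ‖w.1.1 * w.2 - w.1.2.2‖ ≤ s} :=
      isClosed_le (by fun_prop) continuous_const
    have k2 : IsClosed {w : (ℂ × (ℂ × ℂ)) × ℂ | q.eval w.2 = 0} :=
      isClosed_eq hq continuous_const
    exact k1.inter k2
  have := measurable_proj hW
  convert this using 1
  ext x
  constructor
  · rintro ⟨ζ, h⟩
    exact ⟨(x, ζ), h, rfl⟩
  · rintro ⟨⟨y, ζ⟩, h, rfl⟩
    exact ⟨ζ, h⟩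

theorem measurable_B2 (p q : ℂ[X]) (ρ : ℝ) : MeasurableSet {x : ℂ × (ℂ × ℂ) |
    ‖x.1 * p.eval (x.2.2 / x.1) + x.2.1 * q.eval (x.2.2 / x.1)‖ ≤
      ρ * ‖q.eval (x.2.2 / x.1)‖} := by
  have hd : Measurable fun x : ℂ × (ℂ × ℂ) => x.2.2 / x.1 := by fun_prop
  have hp : Measurable fun x : ℂ × (ℂ × ℂ) => p.eval (x.2.2 / x.1) := p.continuous.measurable.comp hd
  have hq : Measurable fun x : ℂ × (ℂ × ℂ) => q.eval (x.2.2 / x.1) := q.continuous.measurable.comp hd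
  apply measurableSet_le
  · fun_prop
  · fun_prop

theorem measurable_B1 (F : Finset (ℂ × ℂ)) (ρ : ℝ) : MeasurableSet {x : ℂ × (ℂ × ℂ) |
    ∃ y ∈ F, ‖x.1 * y.1 + x.2.1 * y.2‖ ≤ ρ * ‖y.2‖} := by
  have : {x : ℂ × (ℂ × ℂ) | ∃ y ∈ F, ‖x.1 * y.1 + x.2.1 * y.2‖ ≤ ρ * ‖y.2‖} =
      ⋃ y ∈ F, {x : ℂ × (ℂ × ℂ) | ‖x.1 * y.1 + x.2.1 * y.2‖ ≤ ρ * ‖y.2‖} := by
    ext x; simp
  rw [this]
  refine F.measurableSet_biUnion fun y _ => ?_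
  exact measurableSet_le (by fun_prop) measurable_const

theorem measurable_Bad (F : Finset (ℂ × ℂ)) (p q : ℂ[X]) (ρ s : ℝ) :
    MeasurableSet (Bad F p q ρ s) :=
  (measurable_B1 F ρ).union ((measurable_B2 p q ρ).union
    ((measurable_B3 q s).union (measurable_B4 p q s)))

/-- the area of the bad set for a fixed `c` -/
theorem area_Bad {F : Finset (ℂ × ℂ)} (hF : ∀ y ∈ F, y.1 ≠ 0 ∨ y.2 ≠ 0) {p q : ℂ[X]} {D : ℕ}
    (hp : p.natDegree ≤ D) (hq : q.natDegree ≤ D) (hpq : ∀ z : ℂ, p.eval z ≠ 0 ∨ q.eval z ≠ 0)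
    (hq0 : q ≠ 0) (hlin : ∀ c e : ℂ, c ≠ 0 → C c * p + C e * q ≠ 0) {ρ s : ℝ} (hρ : 0 ≤ ρ)
    (hs : 0 ≤ s) {c : ℂ} (hc : c ≠ 0) :
    volume {y : ℂ × ℂ | ‖y.1‖ ≤ ‖c‖ ∧ ‖y.2‖ ≤ ‖c‖ ∧ (c, y) ∈ Bad F p q ρ s} ≤
      ENNReal.ofReal (Real.pi ^ 2 * ‖c‖ ^ 2 * ((F.card + 1) * ρ ^ 2 + 2 * D * s ^ 2)) := by
  have hcn : 0 ≤ ‖c‖ := norm_nonneg c
  have hpi := Real.pi_pos
  -- the four parts
  have h1 : volume {y : ℂ × ℂ | ‖y.2‖ ≤ ‖c‖ ∧ ∃ z ∈ F, ‖c * z.1 + y.1 * z.2‖ ≤ ρ * ‖z.2‖} ≤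
      ENNReal.ofReal (F.card * (Real.pi * ρ ^ 2 * (Real.pi * ‖c‖ ^ 2))) := by
    have hsub : {y : ℂ × ℂ | ‖y.2‖ ≤ ‖c‖ ∧ ∃ z ∈ F, ‖c * z.1 + y.1 * z.2‖ ≤ ρ * ‖z.2‖} ⊆
        ⋃ z ∈ F, {e : ℂ | ‖c * z.1 + e * z.2‖ ≤ ρ * ‖z.2‖} ×ˢ Metric.closedBall (0 : ℂ) ‖c‖ := by
      rintro y ⟨h1, z, hz, h2⟩
      rw [Set.mem_iUnion₂]
      refine ⟨z, hz, h2, ?_⟩
      rw [mem_closedBall_zero_iff]
      exact h1
    refine (measure_mono hsub).trans ((measure_biUnion_finset_le _ _).trans ?_)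
    rw [ENNReal.ofReal_mul (by positivity), ENNReal.ofReal_natCast, ← nsmul_eq_mul]
    rw [← Finset.sum_const]
    refine Finset.sum_le_sum fun z hz => ?_
    rw [Measure.volume_eq_prod, Measure.prod_prod, vol_cb _ hcn,
      ENNReal.ofReal_mul (p := Real.pi * ρ ^ 2) (q := Real.pi * ‖c‖ ^ 2) (by positivity)]
    exact mul_le_mul' (vol_lin hc (hF z hz) hρ) le_rfl
  have h2 : volume {y : ℂ × ℂ | ‖y.2‖ ≤ ‖c‖ ∧ ‖c * p.eval (y.2 / c) + y.1 * q.eval (y.2 / c)‖ ≤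
      ρ * ‖q.eval (y.2 / c)‖} ≤ ENNReal.ofReal (Real.pi * ρ ^ 2 * (Real.pi * ‖c‖ ^ 2)) := by
    have hm : MeasurableSet {y : ℂ × ℂ | ‖y.2‖ ≤ ‖c‖ ∧
        ‖c * p.eval (y.2 / c) + y.1 * q.eval (y.2 / c)‖ ≤ ρ * ‖q.eval (y.2 / c)‖} := by
      have hd : Measurable fun x : ℂ × ℂ => x.2 / c := by fun_prop
      have hp : Measurable fun x : ℂ × ℂ => p.eval (x.2 / c) := p.continuous.measurable.comp hd
      have hq : Measurable fun x : ℂ × ℂ => q.eval (x.2 / c) := q.continuous.measurable.comp hd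
      have k1 : MeasurableSet {y : ℂ × ℂ | ‖y.2‖ ≤ ‖c‖} :=
        measurableSet_le (by fun_prop) measurable_const
      have k2 : MeasurableSet {y : ℂ × ℂ |
          ‖c * p.eval (y.2 / c) + y.1 * q.eval (y.2 / c)‖ ≤ ρ * ‖q.eval (y.2 / c)‖} :=
        measurableSet_le (by fun_prop) (by fun_prop)
      exact k1.inter k2
    rw [Measure.volume_eq_prod, Measure.prod_apply_symm hm]
    have h3 : ∀ a : ℂ, volume ((fun x => (x, a)) ⁻¹' {y : ℂ × ℂ | ‖y.2‖ ≤ ‖c‖ ∧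
        ‖c * p.eval (y.2 / c) + y.1 * q.eval (y.2 / c)‖ ≤ ρ * ‖q.eval (y.2 / c)‖}) ≤
        (Metric.closedBall (0 : ℂ) ‖c‖).indicator
          (fun _ => ENNReal.ofReal (Real.pi * ρ ^ 2)) a := by
      intro a
      by_cases ha : ‖a‖ ≤ ‖c‖
      · rw [Set.indicator_of_mem (by rwa [mem_closedBall_zero_iff])]
        refine le_trans (measure_mono ?_) (vol_lin hc (hpq (a / c)) hρ)
        rintro e ⟨-, he⟩
        exact he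
      · have : ((fun x => (x, a)) ⁻¹' {y : ℂ × ℂ | ‖y.2‖ ≤ ‖c‖ ∧
          ‖c * p.eval (y.2 / c) + y.1 * q.eval (y.2 / c)‖ ≤ ρ * ‖q.eval (y.2 / c)‖}) = ∅ := by
          ext e
          simp only [Set.mem_preimage, Set.mem_ofPred_eq, Set.mem_empty_iff_false, iff_false]
          rintro ⟨h, -⟩
          exact ha h
        rw [this, measure_empty]
        exact zero_le
    refine (lintegral_mono h3).trans ?_
    rw [lintegral_indicator_const measurableSet_closedBall, vol_cb _ hcn,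
      ← ENNReal.ofReal_mul (by positivity)]
  have h3 : volume {y : ℂ × ℂ | ‖y.1‖ ≤ ‖c‖ ∧ ∃ ζ : ℂ, ‖c * ζ - y.2‖ ≤ s ∧ q.eval ζ = 0} ≤
      ENNReal.ofReal (Real.pi * ‖c‖ ^ 2 * (D * (Real.pi * s ^ 2))) := by
    have hsub : {y : ℂ × ℂ | ‖y.1‖ ≤ ‖c‖ ∧ ∃ ζ : ℂ, ‖c * ζ - y.2‖ ≤ s ∧ q.eval ζ = 0} ⊆
        Metric.closedBall (0 : ℂ) ‖c‖ ×ˢ {a : ℂ | ∃ ζ : ℂ, ‖c * ζ - a‖ ≤ s ∧ q.eval ζ = 0} := by
      rintro y ⟨h1, h2⟩
      refine ⟨?_, h2⟩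
      rw [mem_closedBall_zero_iff]
      exact h1
    refine (measure_mono hsub).trans ?_
    rw [Measure.volume_eq_prod, Measure.prod_prod, vol_cb _ hcn,
      ENNReal.ofReal_mul (p := Real.pi * ‖c‖ ^ 2) (q := D * (Real.pi * s ^ 2)) (by positivity)]
    exact mul_le_mul' le_rfl (vol_roots hq0 hq c hs)
  have h4 : volume {y : ℂ × ℂ | ‖y.1‖ ≤ ‖c‖ ∧ ∃ ζ : ℂ, ‖c * ζ - y.2‖ ≤ s ∧
      c * p.eval ζ + y.1 * q.eval ζ = 0} ≤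
      ENNReal.ofReal (Real.pi * ‖c‖ ^ 2 * (D * (Real.pi * s ^ 2))) := by
    have hm : MeasurableSet {y : ℂ × ℂ | ‖y.1‖ ≤ ‖c‖ ∧ ∃ ζ : ℂ, ‖c * ζ - y.2‖ ≤ s ∧
        c * p.eval ζ + y.1 * q.eval ζ = 0} := by
      have e1 : {y : ℂ × ℂ | ‖y.1‖ ≤ ‖c‖ ∧ ∃ ζ : ℂ, ‖c * ζ - y.2‖ ≤ s ∧
        c * p.eval ζ + y.1 * q.eval ζ = 0} = {y : ℂ × ℂ | ‖y.1‖ ≤ ‖c‖} ∩
        (fun y : ℂ × ℂ => (c, y)) ⁻¹' {x : ℂ × (ℂ × ℂ) | ∃ ζ : ℂ,
          ‖x.1 * ζ - x.2.2‖ ≤ s ∧ x.1 * p.eval ζ + x.2.1 * q.eval ζ = 0} := rfl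
      rw [e1]
      have k1 : MeasurableSet {y : ℂ × ℂ | ‖y.1‖ ≤ ‖c‖} :=
        measurableSet_le (by fun_prop) measurable_const
      exact k1.inter (measurable_prodMk_left (measurable_B4 p q s))
    rw [Measure.volume_eq_prod, Measure.prod_apply hm]
    have h5 : ∀ e : ℂ, volume (Prod.mk e ⁻¹' {y : ℂ × ℂ | ‖y.1‖ ≤ ‖c‖ ∧ ∃ ζ : ℂ,
        ‖c * ζ - y.2‖ ≤ s ∧ c * p.eval ζ + y.1 * q.eval ζ = 0}) ≤
        (Metric.closedBall (0 : ℂ) ‖c‖).indicator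
          (fun _ => ENNReal.ofReal (D * (Real.pi * s ^ 2))) e := by
      intro e
      by_cases he : ‖e‖ ≤ ‖c‖
      · rw [Set.indicator_of_mem (by rwa [mem_closedBall_zero_iff])]
        have hdeg : (C c * p + C e * q).natDegree ≤ D :=
          (natDegree_add_le _ _).trans (max_le
            ((natDegree_C_mul_le _ _).trans hp) ((natDegree_C_mul_le _ _).trans hq))
        refine le_trans (measure_mono ?_) (vol_roots (hlin c e hc) hdeg c hs)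
        rintro a ⟨-, ζ, h5, h6⟩
        refine ⟨ζ, h5, ?_⟩
        rw [eval_add, eval_mul, eval_mul, eval_C, eval_C]
        exact h6
      · have : (Prod.mk e ⁻¹' {y : ℂ × ℂ | ‖y.1‖ ≤ ‖c‖ ∧ ∃ ζ : ℂ,
          ‖c * ζ - y.2‖ ≤ s ∧ c * p.eval ζ + y.1 * q.eval ζ = 0}) = ∅ := by
          ext a
          simp only [Set.mem_preimage, Set.mem_ofPred_eq, Set.mem_empty_iff_false, iff_false]
          rintro ⟨h, -⟩
          exact he h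
        rw [this, measure_empty]
        exact zero_le
    refine (lintegral_mono h5).trans ?_
    rw [lintegral_indicator_const measurableSet_closedBall, vol_cb _ hcn,
      ← ENNReal.ofReal_mul (by positivity)]
    apply le_of_eq
    congr 1
    ring
  have hsub : {y : ℂ × ℂ | ‖y.1‖ ≤ ‖c‖ ∧ ‖y.2‖ ≤ ‖c‖ ∧ (c, y) ∈ Bad F p q ρ s} ⊆
      (({y : ℂ × ℂ | ‖y.2‖ ≤ ‖c‖ ∧ ∃ z ∈ F, ‖c * z.1 + y.1 * z.2‖ ≤ ρ * ‖z.2‖} ∪
      {y : ℂ × ℂ | ‖y.2‖ ≤ ‖c‖ ∧ ‖c * p.eval (y.2 / c) + y.1 * q.eval (y.2 / c)‖ ≤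
        ρ * ‖q.eval (y.2 / c)‖}) ∪
      {y : ℂ × ℂ | ‖y.1‖ ≤ ‖c‖ ∧ ∃ ζ : ℂ, ‖c * ζ - y.2‖ ≤ s ∧ q.eval ζ = 0}) ∪
      {y : ℂ × ℂ | ‖y.1‖ ≤ ‖c‖ ∧ ∃ ζ : ℂ, ‖c * ζ - y.2‖ ≤ s ∧
        c * p.eval ζ + y.1 * q.eval ζ = 0} := by
    rintro y ⟨k1, k2, k3⟩
    rcases k3 with k | k | k | k
    · exact Or.inl (Or.inl (Or.inl ⟨k2, k⟩))
    · exact Or.inl (Or.inl (Or.inr ⟨k2, k⟩))
    · exact Or.inl (Or.inr ⟨k1, k⟩)
    · exact Or.inr ⟨k1, k⟩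
  refine (measure_mono hsub).trans ((measure_union_le _ _).trans ?_)
  refine (add_le_add ((measure_union_le _ _).trans (add_le_add ((measure_union_le _ _).trans
    (add_le_add h1 h2)) h3)) h4).trans ?_
  rw [← ENNReal.ofReal_add (by positivity) (by positivity),
    ← ENNReal.ofReal_add (by positivity) (by positivity),
    ← ENNReal.ofReal_add (by positivity) (by positivity)]
  apply le_of_eq
  congr 1
  ring

/-- Fubini: the determinant in a disc. `x = (c, ((e, a), b))`. -/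
theorem slab {B : Set (ℂ × (ℂ × ℂ))} (hB : MeasurableSet B) {δ K : ℝ} (hδ : 0 ≤ δ) (hK : 0 ≤ K)
    (h : ∀ c : ℂ, c ≠ 0 → ‖c‖ ≤ 1 → volume {y : ℂ × ℂ | ‖y.1‖ ≤ ‖c‖ ∧ ‖y.2‖ ≤ ‖c‖ ∧ (c, y) ∈ B} ≤
      ENNReal.ofReal (K * ‖c‖ ^ 2)) :
    volume {x : ℂ × ((ℂ × ℂ) × ℂ) | x.1 ≠ 0 ∧ ‖x.1‖ ≤ 1 ∧ ‖x.2.1.1‖ ≤ ‖x.1‖ ∧
      ‖x.2.1.2‖ ≤ ‖x.1‖ ∧ ‖x.2.1.2 * x.2.1.1 - x.2.2 * x.1‖ ≤ δ ∧ (x.1, x.2.1) ∈ B} ≤
      ENNReal.ofReal (Real.pi ^ 2 * δ ^ 2 * K) := by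
  have hpi := Real.pi_pos
  have hm : MeasurableSet {x : ℂ × ((ℂ × ℂ) × ℂ) | x.1 ≠ 0 ∧ ‖x.1‖ ≤ 1 ∧ ‖x.2.1.1‖ ≤ ‖x.1‖ ∧
      ‖x.2.1.2‖ ≤ ‖x.1‖ ∧ ‖x.2.1.2 * x.2.1.1 - x.2.2 * x.1‖ ≤ δ ∧ (x.1, x.2.1) ∈ B} := by
    have k1 : MeasurableSet {x : ℂ × ((ℂ × ℂ) × ℂ) | x.1 ≠ 0} :=
      (isOpen_ne_fun continuous_fst continuous_const).measurableSet
    have k2 : MeasurableSet {x : ℂ × ((ℂ × ℂ) × ℂ) | ‖x.1‖ ≤ 1} :=
      measurableSet_le (by fun_prop) measurable_const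
    have k3 : MeasurableSet {x : ℂ × ((ℂ × ℂ) × ℂ) | ‖x.2.1.1‖ ≤ ‖x.1‖} :=
      measurableSet_le (by fun_prop) (by fun_prop)
    have k4 : MeasurableSet {x : ℂ × ((ℂ × ℂ) × ℂ) | ‖x.2.1.2‖ ≤ ‖x.1‖} :=
      measurableSet_le (by fun_prop) (by fun_prop)
    have k5 : MeasurableSet {x : ℂ × ((ℂ × ℂ) × ℂ) |
        ‖x.2.1.2 * x.2.1.1 - x.2.2 * x.1‖ ≤ δ} :=
      measurableSet_le (by fun_prop) measurable_const
    have k6 : MeasurableSet {x : ℂ × ((ℂ × ℂ) × ℂ) | (x.1, x.2.1) ∈ B} :=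
      hB.preimage (by fun_prop)
    exact k1.inter (k2.inter (k3.inter (k4.inter (k5.inter k6))))
  rw [Measure.volume_eq_prod, Measure.prod_apply hm]
  have hsl : ∀ c : ℂ, volume (Prod.mk c ⁻¹' {x : ℂ × ((ℂ × ℂ) × ℂ) | x.1 ≠ 0 ∧ ‖x.1‖ ≤ 1 ∧
      ‖x.2.1.1‖ ≤ ‖x.1‖ ∧ ‖x.2.1.2‖ ≤ ‖x.1‖ ∧ ‖x.2.1.2 * x.2.1.1 - x.2.2 * x.1‖ ≤ δ ∧
      (x.1, x.2.1) ∈ B}) ≤ (Metric.closedBall (0 : ℂ) 1).indicator
        (fun _ => ENNReal.ofReal (Real.pi * δ ^ 2 * K)) c := by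
    intro c
    by_cases hc : c ≠ 0 ∧ ‖c‖ ≤ 1
    · obtain ⟨hc0, hc1⟩ := hc
      have hcn : 0 < ‖c‖ := norm_pos_iff.2 hc0
      rw [Set.indicator_of_mem (by rwa [mem_closedBall_zero_iff])]
      have hmc := measurable_prodMk_left (x := c) hm
      rw [Measure.volume_eq_prod, Measure.prod_apply hmc]
      have hB' : MeasurableSet {y : ℂ × ℂ | ‖y.1‖ ≤ ‖c‖ ∧ ‖y.2‖ ≤ ‖c‖ ∧ (c, y) ∈ B} := by
        have k1 : MeasurableSet {y : ℂ × ℂ | ‖y.1‖ ≤ ‖c‖} :=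
          measurableSet_le (by fun_prop) measurable_const
        have k2 : MeasurableSet {y : ℂ × ℂ | ‖y.2‖ ≤ ‖c‖} :=
          measurableSet_le (by fun_prop) measurable_const
        have k3 : MeasurableSet {y : ℂ × ℂ | (c, y) ∈ B} := measurable_prodMk_left hB
        exact k1.inter (k2.inter k3)
      have h5 : ∀ y : ℂ × ℂ, volume (Prod.mk y ⁻¹' (Prod.mk c ⁻¹' {x : ℂ × ((ℂ × ℂ) × ℂ) |
          x.1 ≠ 0 ∧ ‖x.1‖ ≤ 1 ∧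
          ‖x.2.1.1‖ ≤ ‖x.1‖ ∧ ‖x.2.1.2‖ ≤ ‖x.1‖ ∧ ‖x.2.1.2 * x.2.1.1 - x.2.2 * x.1‖ ≤ δ ∧
          (x.1, x.2.1) ∈ B})) ≤
          {y : ℂ × ℂ | ‖y.1‖ ≤ ‖c‖ ∧ ‖y.2‖ ≤ ‖c‖ ∧ (c, y) ∈ B}.indicator
            (fun _ => ENNReal.ofReal (Real.pi * (δ / ‖c‖) ^ 2)) y := by
        intro y
        by_cases hy : y ∈ {y : ℂ × ℂ | ‖y.1‖ ≤ ‖c‖ ∧ ‖y.2‖ ≤ ‖c‖ ∧ (c, y) ∈ B}
        · rw [Set.indicator_of_mem hy, ← vol_cb (y.2 * y.1 / c) (by positivity)]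
          apply measure_mono
          rintro b ⟨-, -, -, -, hb, -⟩
          simp only at hb
          rw [Metric.mem_closedBall, dist_eq_norm]
          have e1 : b - y.2 * y.1 / c = -(y.2 * y.1 - b * c) / c := by field_simp; ring
          rw [e1, norm_div, norm_neg]
          exact div_le_div_of_nonneg_right hb hcn.le
        · have : (Prod.mk y ⁻¹' (Prod.mk c ⁻¹' {x : ℂ × ((ℂ × ℂ) × ℂ) | x.1 ≠ 0 ∧ ‖x.1‖ ≤ 1 ∧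
            ‖x.2.1.1‖ ≤ ‖x.1‖ ∧ ‖x.2.1.2‖ ≤ ‖x.1‖ ∧ ‖x.2.1.2 * x.2.1.1 - x.2.2 * x.1‖ ≤ δ ∧
            (x.1, x.2.1) ∈ B})) = ∅ := by
            ext b
            simp only [Set.mem_preimage, Set.mem_ofPred_eq, Set.mem_empty_iff_false, iff_false]
            rintro ⟨-, -, g1, g2, -, g3⟩
            exact hy ⟨g1, g2, g3⟩
          rw [this, measure_empty]
          exact zero_le
      refine (lintegral_mono h5).trans ?_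
      rw [lintegral_indicator_const hB']
      refine (mul_le_mul_right (h c hc0 hc1) _).trans ?_
      rw [← ENNReal.ofReal_mul (by positivity)]
      apply le_of_eq
      congr 1
      field_simp
    · have : (Prod.mk c ⁻¹' {x : ℂ × ((ℂ × ℂ) × ℂ) | x.1 ≠ 0 ∧ ‖x.1‖ ≤ 1 ∧
        ‖x.2.1.1‖ ≤ ‖x.1‖ ∧ ‖x.2.1.2‖ ≤ ‖x.1‖ ∧ ‖x.2.1.2 * x.2.1.1 - x.2.2 * x.1‖ ≤ δ ∧
        (x.1, x.2.1) ∈ B}) = ∅ := by
        ext y
        simp only [Set.mem_preimage, Set.mem_ofPred_eq, Set.mem_empty_iff_false, iff_false]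
        rintro ⟨g1, g2, -⟩
        exact hc ⟨g1, g2⟩
      rw [this, measure_empty]
      exact zero_le
  refine (lintegral_mono hsl).trans ?_
  rw [lintegral_indicator_const measurableSet_closedBall, vol_cb _ zero_le_one,
    ← ENNReal.ofReal_mul (by positivity)]
  apply le_of_eq
  congr 1
  ring

end Pool.Agent.Y765.PC
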