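import Mathlib
import Pool.Agent.Y765.PC.Crit
import Pool.Agent.Y765.PC.Meas

/-!
# Post-composition of a rational map with Moebius maps: the volume estimate
-/

set_option autoImplicit false

open Polynomial MeasureTheory

namespace Pool.Agent.Y765.PC

open Pool.Agent.H762R2.Rt Pool.Agent.H462R2.AP
open Pool.Agent.Helper114.Herman Pool.Agent.Helper114.Konig

section alg

variable {P Q : ℂ[X]} {D : ℕ}

theorem wro_ne (hD : 1 ≤ D) (hdeg : D = max P.natDegree Q.natDegree) (hcop : IsCoprime P Q) :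
    wro P Q ≠ 0 := by
  intro h
  have h1 : wronskian P Q = 0 := by
    have : wronskian P Q = -wro P Q := by unfold wronskian wro; ring
    rw [this, h, neg_zero]
  obtain ⟨h2, h3⟩ := hcop.wronskian_eq_zero_iff.1 h1
  have h4 := derivative_eq_zero.1 h2
  have h5 := derivative_eq_zero.1 h3
  omega

theorem wro_deg (hD : 1 ≤ D) (hdeg : D = max P.natDegree Q.natDegree) :
    (wro P Q).natDegree ≤ 2 * D - 1 := by
  have hP : P.natDegree ≤ D := hdeg ▸ le_max_left _ _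
  have hQ : Q.natDegree ≤ D := hdeg ▸ le_max_right _ _
  have h1 := natDegree_derivative_le P
  have h2 := natDegree_derivative_le Q
  have h3 : (derivative P * Q).natDegree ≤ 2 * D - 1 := natDegree_mul_le.trans (by omega)
  have h4 : (P * derivative Q).natDegree ≤ 2 * D - 1 := natDegree_mul_le.trans (by omega)
  exact (natDegree_sub_le _ _).trans (max_le h3 h4)

/-- the values of `(P, Q)` at the critical points and at infinity -/
noncomputable def crv (P Q : ℂ[X]) (D : ℕ) : Finset (ℂ × ℂ) :=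
  insert (P.coeff D, Q.coeff D) ((wro P Q).roots.toFinset.image fun z => (P.eval z, Q.eval z))

theorem card_crv (hD : 1 ≤ D) (hdeg : D = max P.natDegree Q.natDegree) :
    (crv P Q D).card ≤ 2 * D := by
  unfold crv
  refine (Finset.card_insert_le _ _).trans ?_
  have h1 : ((wro P Q).roots.toFinset.image fun z => (P.eval z, Q.eval z)).card ≤ 2 * D - 1 :=
    Finset.card_image_le.trans ((Multiset.toFinset_card_le _).trans
      ((card_roots' _).trans (wro_deg hD hdeg)))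
  omega

theorem crv_ne (hD : 1 ≤ D) (hdeg : D = max P.natDegree Q.natDegree) (hcop : IsCoprime P Q) :
    ∀ y ∈ crv P Q D, y.1 ≠ 0 ∨ y.2 ≠ 0 := by
  have hP : P.natDegree ≤ D := hdeg ▸ le_max_left _ _
  have hQ : Q.natDegree ≤ D := hdeg ▸ le_max_right _ _
  intro y hy
  unfold crv at hy
  rw [Finset.mem_insert, Finset.mem_image] at hy
  rcases hy with rfl | ⟨z, -, rfl⟩
  · have := hom_not_both hcop hdeg (u := 1) (v := 0) (Or.inl one_ne_zero) hD
    rw [hom_zero, hom_zero, one_pow, mul_one, mul_one] at this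
    exact this
  · have := hom_not_both hcop hdeg (u := z) (v := 1) (Or.inr one_ne_zero) hD
    rw [hom_ne hP one_ne_zero, hom_ne hQ one_ne_zero, one_pow, one_mul, one_mul, div_one] at this
    exact this

theorem rv_not_both (hD : 1 ≤ D) (hdeg : D = max P.natDegree Q.natDegree) (hcop : IsCoprime P Q)
    (i : Bool) (z : ℂ) : (rv i D P).eval z ≠ 0 ∨ (rv i D Q).eval z ≠ 0 := by
  have hP : P.natDegree ≤ D := hdeg ▸ le_max_left _ _
  have hQ : Q.natDegree ≤ D := hdeg ▸ le_max_right _ _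
  rw [← hom_rv i hP, ← hom_rv i hQ]
  exact hom_not_both hcop hdeg (cuv_ne i z) hD

theorem rv_eq_zero (i : Bool) (h : rv i D P = 0) : P = 0 := by
  cases i
  · simpa [rv] using h
  · simp only [rv, if_true] at h
    exact reflect_eq_zero_iff.1 h

theorem rv_lin (i : Bool) (c e : ℂ) :
    C c * rv i D P + C e * rv i D Q = rv i D (C c * P + C e * Q) := by
  cases i
  · simp [rv]
  · simp only [rv, if_true]
    rw [reflect_add, reflect_C_mul, reflect_C_mul]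

theorem rv_lin_ne (hD : 1 ≤ D) (hdeg : D = max P.natDegree Q.natDegree) (hcop : IsCoprime P Q)
    (i : Bool) (c e : ℂ) (hc : c ≠ 0) : C c * rv i D P + C e * rv i D Q ≠ 0 := by
  rw [rv_lin]
  intro h
  have h1 := rv_eq_zero i h
  have hdet : c * 1 - e * 0 ≠ 0 := by simpa using hc
  exact (ne_zero_of_cop hD (deg_lin hD hdeg hdet) (cop_lin hcop hdet)).1 h1

/-- the criterion in terms of the bad set -/
theorem crit' (hD : 1 ≤ D) (hdeg : D = max P.natDegree Q.natDegree)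
    (hcop : IsCoprime P Q) (i : Bool) {a b c e : ℂ} (hc : c ≠ 0) (hdet : a * e - b * c ≠ 0)
    {ρ r : ℝ} (hρ : 0 < ρ) (hr : 0 < r) (h16 : 16 * ‖a * e - b * c‖ < ρ * r)
    (hbad : (c, (e, a)) ∉ Bad (crv P Q D) (rv i D P) (rv i D Q) ρ (2 * D * r)) :
    Hyp (if i then C c * P + C e * Q else C a * P + C b * Q)
      (if i then C a * P + C b * Q else C c * P + C e * Q) := by
  unfold Bad at hbad
  simp only [Set.mem_ofPred_eq, not_or, not_exists, not_and, not_le] at hbad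
  obtain ⟨h1, h2, h3, h4⟩ := hbad
  refine crit hD hdeg hcop i hc hdet hρ hr h16 ?_ ?_ h2.le ?_
  · intro z hz
    refine (h1 (P.eval z, Q.eval z) ?_).le
    unfold crv
    rw [Finset.mem_insert, Finset.mem_image]
    right
    refine ⟨z, ?_, rfl⟩
    rw [Multiset.mem_toFinset, mem_roots (wro_ne hD hdeg hcop)]
    exact hz
  · refine (h1 (P.coeff D, Q.coeff D) ?_).le
    unfold crv
    exact Finset.mem_insert_self _ _
  · intro ζ hζ
    exact ⟨h3 ζ hζ.le, h4 ζ hζ.le⟩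

theorem area (hD : 1 ≤ D) (hdeg : D = max P.natDegree Q.natDegree)
    (hcop : IsCoprime P Q) (i : Bool) {δ : ℝ} (hδ : 0 < δ) : ∃ ρ r : ℝ, 0 < ρ ∧ 0 < r ∧
    16 * δ < ρ * r ∧ ∀ c : ℂ, c ≠ 0 → volume {y : ℂ × ℂ | ‖y.1‖ ≤ ‖c‖ ∧ ‖y.2‖ ≤ ‖c‖ ∧
      (c, y) ∈ Bad (crv P Q D) (rv i D P) (rv i D Q) ρ (2 * D * r)} ≤
      ENNReal.ofReal (Real.pi ^ 2 * (167 * D ^ 2 * δ) * ‖c‖ ^ 2) := by
  have hP : P.natDegree ≤ D := hdeg ▸ le_max_left _ _
  have hQ : Q.natDegree ≤ D := hdeg ▸ le_max_right _ _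
  have hDR : (1 : ℝ) ≤ D := by exact_mod_cast hD
  have hD0 : (0 : ℝ) < D := by linarith
  obtain ⟨ρ, hρd⟩ : ∃ ρ : ℝ, ρ = Real.sqrt (28 * D * δ) := ⟨_, rfl⟩
  have hρ : 0 < ρ := by rw [hρd]; positivity
  have hρ2 : ρ ^ 2 = 28 * D * δ := by rw [hρd, Real.sq_sqrt (by positivity)]
  obtain ⟨r, hrd⟩ : ∃ r : ℝ, r = 17 * δ / ρ := ⟨_, rfl⟩
  have hr : 0 < r := by rw [hrd]; positivity
  have hρr : ρ * r = 17 * δ := by rw [hrd]; field_simp
  have hr2 : 28 * D * r ^ 2 = 289 * δ := by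
    have h1 : ρ ^ 2 * r ^ 2 = (17 * δ) ^ 2 := by rw [← mul_pow, hρr]
    rw [hρ2] at h1
    have h2 : δ * (28 * D * r ^ 2) = δ * (289 * δ) := by linear_combination h1
    exact mul_left_cancel₀ hδ.ne' h2
  refine ⟨ρ, r, hρ, hr, by rw [hρr]; linarith, fun c hc => ?_⟩
  refine (area_Bad (crv_ne hD hdeg hcop) (rv_natDegree i hP) (rv_natDegree i hQ)
    (rv_not_both hD hdeg hcop i) (fun h => (ne_zero_of_cop hD hdeg hcop).2 (rv_eq_zero i h))
    (rv_lin_ne hD hdeg hcop i) hρ.le (by positivity) hc).trans ?_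
  apply ENNReal.ofReal_le_ofReal
  have hcard : ((crv P Q D).card : ℝ) ≤ 2 * D := by exact_mod_cast card_crv hD hdeg
  have h1 : ((crv P Q D).card + 1) * ρ ^ 2 + 2 * D * (2 * D * r) ^ 2 ≤ 167 * D ^ 2 * δ := by
    have e1 : 2 * (D : ℝ) * (2 * D * r) ^ 2 = 8 * D ^ 2 * (D * r ^ 2) := by ring
    have e2 : (D : ℝ) * r ^ 2 = 289 * δ / 28 := by
      rw [eq_div_iff (by norm_num)]
      linarith
    rw [e1, e2, hρ2]
    have h2 : ((crv P Q D).card + 1 : ℝ) ≤ 3 * D := by linarith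
    have h3 : ((crv P Q D).card + 1 : ℝ) * (28 * D * δ) ≤ 3 * D * (28 * D * δ) :=
      mul_le_mul_of_nonneg_right h2 (by positivity)
    have h4 : 0 ≤ (D : ℝ) ^ 2 * δ := by positivity
    nlinarith
  have h5 : 0 ≤ Real.pi ^ 2 * ‖c‖ ^ 2 := by positivity
  calc Real.pi ^ 2 * ‖c‖ ^ 2 * (((crv P Q D).card + 1) * ρ ^ 2 + 2 * D * (2 * D * r) ^ 2)
      ≤ Real.pi ^ 2 * ‖c‖ ^ 2 * (167 * D ^ 2 * δ) := mul_le_mul_of_nonneg_left h1 h5
    _ = _ := by ring

/-- the volume of the non-hyperbolic matrices with largest entry `c`; `x = (c, ((e, a), b))` -/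
theorem case_vol (hD : 1 ≤ D) (hdeg : D = max P.natDegree Q.natDegree)
    (hcop : IsCoprime P Q) (i : Bool) {δ : ℝ} (hδ : 0 < δ) :
    volume {x : ℂ × ((ℂ × ℂ) × ℂ) | x.1 ≠ 0 ∧ ‖x.1‖ ≤ 1 ∧ ‖x.2.1.1‖ ≤ ‖x.1‖ ∧
      ‖x.2.1.2‖ ≤ ‖x.1‖ ∧ ‖x.2.1.2 * x.2.1.1 - x.2.2 * x.1‖ ≤ δ ∧
      ¬ Hyp (if i then C x.1 * P + C x.2.1.1 * Q else C x.2.1.2 * P + C x.2.2 * Q)
        (if i then C x.2.1.2 * P + C x.2.2 * Q else C x.1 * P + C x.2.1.1 * Q)} ≤
      ENNReal.ofReal (167 * Real.pi ^ 4 * D ^ 2 * δ ^ 3) := by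
  obtain ⟨ρ, r, hρ, hr, h16, harea⟩ := area hD hdeg hcop i hδ
  have hpi := Real.pi_pos
  have h1 := slab (measurable_Bad (crv P Q D) (rv i D P) (rv i D Q) ρ (2 * D * r)) hδ.le
    (K := Real.pi ^ 2 * (167 * D ^ 2 * δ)) (by positivity) (fun c hc _ => harea c hc)
  have h2 := slab (B := Set.univ) MeasurableSet.univ (δ := 0) le_rfl (K := Real.pi ^ 2)
    (by positivity) (fun c hc hc1 => by
      have hsub : {y : ℂ × ℂ | ‖y.1‖ ≤ ‖c‖ ∧ ‖y.2‖ ≤ ‖c‖ ∧ (c, y) ∈ Set.univ} ⊆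
          Metric.closedBall (0 : ℂ) ‖c‖ ×ˢ Metric.closedBall (0 : ℂ) ‖c‖ := by
        rintro y ⟨k1, k2, -⟩
        exact ⟨by rwa [mem_closedBall_zero_iff], by rwa [mem_closedBall_zero_iff]⟩
      refine (measure_mono hsub).trans ?_
      rw [Measure.volume_eq_prod, Measure.prod_prod, vol_cb _ (norm_nonneg _),
        ← ENNReal.ofReal_mul (by positivity)]
      apply ENNReal.ofReal_le_ofReal
      have h3 : ‖c‖ ^ 2 ≤ 1 := by
        have := norm_nonneg c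
        nlinarith
      have h4 : 0 ≤ Real.pi ^ 2 * ‖c‖ ^ 2 := by positivity
      calc Real.pi * ‖c‖ ^ 2 * (Real.pi * ‖c‖ ^ 2) = (Real.pi ^ 2 * ‖c‖ ^ 2) * ‖c‖ ^ 2 := by ring
        _ ≤ (Real.pi ^ 2 * ‖c‖ ^ 2) * 1 := mul_le_mul_of_nonneg_left h3 h4
        _ = _ := by ring)
  refine le_trans (measure_mono ?_) ((measure_union_le _ _).trans ((add_le_add h1 h2).trans ?_))
  · rintro x ⟨g1, g2, g3, g4, g5, g6⟩
    by_cases hdet : x.2.1.2 * x.2.1.1 - x.2.2 * x.1 = 0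
    · right
      exact ⟨g1, g2, g3, g4, by rw [hdet, norm_zero], Set.mem_univ _⟩
    · left
      refine ⟨g1, g2, g3, g4, g5, ?_⟩
      by_contra hbad
      exact g6 (crit' hD hdeg hcop i g1 hdet hρ hr (by linarith) hbad)
  · rw [← ENNReal.ofReal_add (by positivity) (by positivity)]
    apply le_of_eq
    congr 1
    ring

end alg

/-! ### the space of matrices -/

/-- exchange of the rows -/
def rowsw (m : ℂ × ℂ × ℂ × ℂ) : ℂ × ℂ × ℂ × ℂ := (m.2.2.1, m.2.2.2, m.1, m.2.1)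

/-- exchange of the columns -/
def colsw (m : ℂ × ℂ × ℂ × ℂ) : ℂ × ℂ × ℂ × ℂ := (m.2.1, m.1, m.2.2.2, m.2.2.1)

/-- reordering of the entries -/
def ord (m : ℂ × ℂ × ℂ × ℂ) : ℂ × ((ℂ × ℂ) × ℂ) := (m.2.2.1, ((m.2.2.2, m.1), m.2.1))

theorem mp_assoc4 : MeasurePreserving
    (MeasurableEquiv.prodAssoc : (ℂ × ℂ) × (ℂ × ℂ) ≃ᵐ ℂ × ℂ × ℂ × ℂ) volume volume :=
  volume_preserving_prodAssoc

theorem mp_assoc3 : MeasurePreserving
    (MeasurableEquiv.prodAssoc : (ℂ × ℂ) × ℂ ≃ᵐ ℂ × ℂ × ℂ) volume volume :=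
  volume_preserving_prodAssoc

theorem mp_rowsw : MeasurePreserving rowsw volume volume := by
  have h1 : MeasurePreserving (Prod.swap : (ℂ × ℂ) × (ℂ × ℂ) → (ℂ × ℂ) × (ℂ × ℂ)) volume volume :=
    Measure.measurePreserving_swap
  exact mp_assoc4.comp (h1.comp (mp_assoc4.symm _))

theorem mp_colsw : MeasurePreserving colsw volume volume := by
  have h0 : MeasurePreserving (Prod.swap : ℂ × ℂ → ℂ × ℂ) volume volume :=
    Measure.measurePreserving_swap
  have h1 : MeasurePreserving (Prod.map Prod.swap Prod.swap : (ℂ × ℂ) × (ℂ × ℂ) →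
      (ℂ × ℂ) × (ℂ × ℂ)) volume volume := h0.prod h0
  exact mp_assoc4.comp (h1.comp (mp_assoc4.symm _))

theorem mp_ord : MeasurePreserving ord volume volume := by
  have h1 : MeasurePreserving (Prod.map id (MeasurableEquiv.prodAssoc.symm) :
      ℂ × (ℂ × ℂ × ℂ) → ℂ × ((ℂ × ℂ) × ℂ)) volume volume :=
    (MeasurePreserving.id _).prod (mp_assoc3.symm _)
  exact h1.comp mp_rowsw

theorem mp_le {X Y : Type*} [MeasurableSpace X] [MeasurableSpace Y] {μ : Measure X}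
    {ν : Measure Y} {T : X → Y} (hT : MeasurePreserving T μ ν) (s : Set Y) :
    μ (T ⁻¹' s) ≤ ν s := by
  calc μ (T ⁻¹' s) ≤ μ (T ⁻¹' (toMeasurable ν s)) :=
        measure_mono (Set.preimage_mono (subset_toMeasurable _ _))
    _ = ν (toMeasurable ν s) :=
        hT.measure_preimage (measurableSet_toMeasurable _ _).nullMeasurableSet
    _ = ν s := measure_toMeasurable s

/-- matrices `(a, b; c, e)` with entries of modulus at most one and determinant of modulus at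
most `δ` -/
def Mat (δ : ℝ) : Set (ℂ × ℂ × ℂ × ℂ) :=
  {m | ‖m.1‖ ≤ 1 ∧ ‖m.2.1‖ ≤ 1 ∧ ‖m.2.2.1‖ ≤ 1 ∧ ‖m.2.2.2‖ ≤ 1 ∧
    ‖m.1 * m.2.2.2 - m.2.1 * m.2.2.1‖ ≤ δ}

/-- hyperbolicity of `m ∘ (P / Q)` -/
def HM (P Q : ℂ[X]) (m : ℂ × ℂ × ℂ × ℂ) : Prop :=
  Hyp (C m.1 * P + C m.2.1 * Q) (C m.2.2.1 * P + C m.2.2.2 * Q)

theorem upper {P Q : ℂ[X]} {D : ℕ} (hD : 1 ≤ D) (hdeg : D = max P.natDegree Q.natDegree)
    (hcop : IsCoprime P Q) {δ : ℝ} (hδ : 0 < δ) :
    volume {m | m ∈ Mat δ ∧ ¬ HM P Q m} ≤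
      ENNReal.ofReal (668 * Real.pi ^ 4 * D ^ 2 * δ ^ 3) := by
  have hpi := Real.pi_pos
  have hdeg' : D = max Q.natDegree P.natDegree := by rw [max_comm]; exact hdeg
  have v1 := (mp_le mp_ord _).trans (case_vol hD hdeg hcop false hδ)
  have v2 := (mp_le (mp_ord.comp mp_rowsw) _).trans (case_vol hD hdeg hcop true hδ)
  have v3 := (mp_le (mp_ord.comp mp_colsw) _).trans (case_vol hD hdeg' hcop.symm false hδ)
  have v4 := (mp_le (mp_ord.comp (mp_rowsw.comp mp_colsw)) _).trans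
    (case_vol hD hdeg' hcop.symm true hδ)
  have v5 : volume (({0} : Set ℂ) ×ˢ (Set.univ : Set (ℂ × ℂ × ℂ))) ≤ ENNReal.ofReal 0 := by
    rw [Measure.volume_eq_prod, Measure.prod_prod, measure_singleton, zero_mul]
    exact zero_le
  refine le_trans (measure_mono ?_) ((measure_union_le _ _).trans ((add_le_add
    ((measure_union_le _ _).trans (add_le_add ((measure_union_le _ _).trans (add_le_add
      ((measure_union_le _ _).trans (add_le_add v1 v2)) v3)) v4)) v5).trans ?_))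
  · rintro ⟨a, b, c, e⟩ ⟨⟨g1, g2, g3, g4, g5⟩, g6⟩
    simp only at g1 g2 g3 g4 g5
    unfold HM at g6
    simp only at g6
    by_cases h0 : a = 0 ∧ b = 0 ∧ c = 0 ∧ e = 0
    · right
      exact ⟨h0.1, Set.mem_univ _⟩
    left
    have gen : ∀ x : ℂ, (∀ y ∈ ({a, b, c, e} : Set ℂ), ‖y‖ ≤ ‖x‖) → x ≠ 0 := by
      rintro x hx rfl
      apply h0
      simp only [norm_zero, norm_le_zero_iff, Set.mem_insert_iff, Set.mem_singleton_iff] at hx
      exact ⟨hx a (by simp), hx b (by simp), hx c (by simp), hx e (by simp)⟩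
    have hd1 : ‖b * c - a * e‖ ≤ δ := by rw [norm_sub_rev]; exact g5
    by_cases hc : ‖a‖ ≤ ‖c‖ ∧ ‖b‖ ≤ ‖c‖ ∧ ‖e‖ ≤ ‖c‖
    · left; left; left
      refine ⟨gen c ?_, g3, hc.2.2, hc.1, g5, ?_⟩
      · rintro y (rfl | rfl | rfl | rfl)
        exacts [hc.1, hc.2.1, le_rfl, hc.2.2]
      · exact g6
    by_cases ha : ‖b‖ ≤ ‖a‖ ∧ ‖c‖ ≤ ‖a‖ ∧ ‖e‖ ≤ ‖a‖
    · left; left; right
      refine ⟨gen a ?_, g1, ha.1, ha.2.1, ?_, ?_⟩
      · rintro y (rfl | rfl | rfl | rfl)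
        exacts [le_rfl, ha.1, ha.2.1, ha.2.2]
      · show ‖c * b - e * a‖ ≤ δ
        rw [mul_comm c, mul_comm e]
        exact hd1
      · exact g6
    by_cases he : ‖a‖ ≤ ‖e‖ ∧ ‖b‖ ≤ ‖e‖ ∧ ‖c‖ ≤ ‖e‖
    · left; right
      refine ⟨gen e ?_, g4, he.2.2, he.2.1, ?_, ?_⟩
      · rintro y (rfl | rfl | rfl | rfl)
        exacts [he.1, he.2.1, he.2.2, le_rfl]
      · exact hd1
      · show ¬ Hyp (C b * Q + C a * P) (C e * Q + C c * P)
        rw [add_comm (C b * Q), add_comm (C e * Q)]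
        exact g6
    · right
      have hb : ‖a‖ ≤ ‖b‖ ∧ ‖c‖ ≤ ‖b‖ ∧ ‖e‖ ≤ ‖b‖ := by
        by_contra hb
        rcases le_total ‖a‖ ‖b‖ with k1 | k1 <;> rcases le_total ‖a‖ ‖c‖ with k2 | k2 <;>
        rcases le_total ‖a‖ ‖e‖ with k3 | k3 <;> rcases le_total ‖b‖ ‖c‖ with k4 | k4 <;>
        rcases le_total ‖b‖ ‖e‖ with k5 | k5 <;> rcases le_total ‖c‖ ‖e‖ with k6 | k6 <;>
        first
          | exact hc ⟨by linarith, by linarith, by linarith⟩
          | exact ha ⟨by linarith, by linarith, by linarith⟩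
          | exact he ⟨by linarith, by linarith, by linarith⟩
          | exact hb ⟨by linarith, by linarith, by linarith⟩
      refine ⟨gen b ?_, g2, hb.1, hb.2.2, ?_, ?_⟩
      · rintro y (rfl | rfl | rfl | rfl)
        exacts [hb.1, le_rfl, hb.2.1, hb.2.2]
      · show ‖e * a - c * b‖ ≤ δ
        rw [mul_comm e, mul_comm c]
        exact g5
      · show ¬ Hyp (C b * Q + C a * P) (C e * Q + C c * P)
        rw [add_comm (C b * Q), add_comm (C e * Q)]
        exact g6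
  · rw [← ENNReal.ofReal_add (by positivity) (by positivity),
      ← ENNReal.ofReal_add (by positivity) (by positivity),
      ← ENNReal.ofReal_add (by positivity) (by positivity),
      ← ENNReal.ofReal_add (by positivity) le_rfl]
    apply le_of_eq
    congr 1
    ring

/-! ### the volume of the space of matrices -/

theorem lower {δ : ℝ} (hδ : 0 < δ) (hδ1 : δ ≤ 1) :
    ENNReal.ofReal (7 / 576 * Real.pi ^ 4 * δ ^ 2) ≤ volume (Mat δ) := by
  have hpi := Real.pi_pos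
  obtain ⟨L, hL⟩ : ∃ L : Set (ℂ × ((ℂ × ℂ) × ℂ)), L = {x | 3 / 4 ≤ ‖x.1‖ ∧ ‖x.1‖ ≤ 1 ∧
      ‖x.2.1.1‖ ≤ 1 / 2 ∧ ‖x.2.1.2‖ ≤ 1 / 2 ∧
      ‖x.2.1.2 * x.2.1.1 - x.2.2 * x.1‖ ≤ 2 / 3 * δ * ‖x.1‖} := ⟨_, rfl⟩
  have hm : MeasurableSet L := by
    have k1 : MeasurableSet {x : ℂ × ((ℂ × ℂ) × ℂ) | 3 / 4 ≤ ‖x.1‖} :=
      measurableSet_le measurable_const (by fun_prop)
    have k2 : MeasurableSet {x : ℂ × ((ℂ × ℂ) × ℂ) | ‖x.1‖ ≤ 1} :=
      measurableSet_le (by fun_prop) measurable_const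
    have k3 : MeasurableSet {x : ℂ × ((ℂ × ℂ) × ℂ) | ‖x.2.1.1‖ ≤ 1 / 2} :=
      measurableSet_le (by fun_prop) measurable_const
    have k4 : MeasurableSet {x : ℂ × ((ℂ × ℂ) × ℂ) | ‖x.2.1.2‖ ≤ 1 / 2} :=
      measurableSet_le (by fun_prop) measurable_const
    have k5 : MeasurableSet {x : ℂ × ((ℂ × ℂ) × ℂ) |
        ‖x.2.1.2 * x.2.1.1 - x.2.2 * x.1‖ ≤ 2 / 3 * δ * ‖x.1‖} :=
      measurableSet_le (by fun_prop) (by fun_prop)
    rw [hL]
    exact k1.inter (k2.inter (k3.inter (k4.inter k5)))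
  have hsub : ord ⁻¹' L ⊆ Mat δ := by
    rintro ⟨a, b, c, e⟩ hx
    rw [hL] at hx
    obtain ⟨g1, g2, g3, g4, g5⟩ := hx
    simp only [ord] at g1 g2 g3 g4 g5
    have hc0 : 0 < ‖c‖ := by linarith
    have h1 : ‖b‖ * ‖c‖ ≤ ‖a * e‖ + 2 / 3 * δ * ‖c‖ := by
      have e1 : b * c = a * e - (a * e - b * c) := by ring
      rw [← norm_mul]
      calc ‖b * c‖ = ‖a * e - (a * e - b * c)‖ := by rw [← e1]
        _ ≤ ‖a * e‖ + ‖a * e - b * c‖ := norm_sub_le _ _
        _ ≤ _ := by linarith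
    have h2 : ‖a * e‖ ≤ 1 / 4 := by
      rw [norm_mul]
      have := norm_nonneg a
      have := norm_nonneg e
      nlinarith
    refine ⟨by show ‖a‖ ≤ 1; linarith, ?_, g2, by show ‖e‖ ≤ 1; linarith, ?_⟩
    · show ‖b‖ ≤ 1
      by_contra hb
      push Not at hb
      nlinarith
    · show ‖a * e - b * c‖ ≤ δ
      refine g5.trans ?_
      nlinarith
  have hvol : volume (ord ⁻¹' L) = volume L := mp_ord.measure_preimage hm.nullMeasurableSet
  refine le_trans ?_ ((hvol ▸ measure_mono hsub : volume L ≤ volume (Mat δ)))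
  rw [Measure.volume_eq_prod, Measure.prod_apply hm]
  have hann : volume (Metric.closedBall (0 : ℂ) 1 \ Metric.ball (0 : ℂ) (3 / 4)) =
      ENNReal.ofReal (7 / 16 * Real.pi) := by
    rw [measure_diff (Metric.ball_subset_closedBall.trans
      (Metric.closedBall_subset_closedBall (by norm_num))) measurableSet_ball.nullMeasurableSet
      (measure_ball_lt_top).ne, ← Measure.addHaar_closedBall_eq_addHaar_ball,
      vol_cb _ zero_le_one, vol_cb _ (by norm_num), ← ENNReal.ofReal_sub _ (by positivity)]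
    congr 1
    ring
  have hsl : ∀ c : ℂ, (Metric.closedBall (0 : ℂ) 1 \ Metric.ball (0 : ℂ) (3 / 4)).indicator
      (fun _ => ENNReal.ofReal (Real.pi * (2 / 3 * δ) ^ 2 * (Real.pi * (1 / 2) ^ 2) ^ 2)) c ≤
      volume (Prod.mk c ⁻¹' L) := by
    intro c
    by_cases hc : c ∈ Metric.closedBall (0 : ℂ) 1 \ Metric.ball (0 : ℂ) (3 / 4)
    · rw [Set.indicator_of_mem hc]
      obtain ⟨hc1, hc2⟩ := hc
      rw [mem_closedBall_zero_iff] at hc1
      rw [mem_ball_zero_iff, not_lt] at hc2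
      have hcn : 0 < ‖c‖ := by linarith
      have hc0 : c ≠ 0 := norm_pos_iff.1 hcn
      have hmc := measurable_prodMk_left (x := c) hm
      rw [Measure.volume_eq_prod, Measure.prod_apply hmc]
      have h5 : ∀ y : ℂ × ℂ, ((Metric.closedBall (0 : ℂ) (1 / 2)) ×ˢ
          (Metric.closedBall (0 : ℂ) (1 / 2))).indicator
            (fun _ => ENNReal.ofReal (Real.pi * (2 / 3 * δ) ^ 2)) y ≤
          volume (Prod.mk y ⁻¹' (Prod.mk c ⁻¹' L)) := by
        intro y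
        by_cases hy : y ∈ (Metric.closedBall (0 : ℂ) (1 / 2)) ×ˢ (Metric.closedBall (0 : ℂ) (1 / 2))
        · rw [Set.indicator_of_mem hy, ← vol_cb (y.2 * y.1 / c) (by positivity)]
          obtain ⟨hy1, hy2⟩ := hy
          rw [mem_closedBall_zero_iff] at hy1 hy2
          apply measure_mono
          intro b hb
          rw [Metric.mem_closedBall, dist_eq_norm] at hb
          have e1 : b - y.2 * y.1 / c = -(y.2 * y.1 - b * c) / c := by field_simp; ring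
          rw [e1, norm_div, norm_neg, div_le_iff₀ hcn] at hb
          rw [hL]
          exact ⟨hc2, hc1, hy1, hy2, hb⟩
        · rw [Set.indicator_of_notMem hy]
          exact zero_le
      refine le_trans ?_ (lintegral_mono h5)
      rw [lintegral_indicator_const (measurableSet_closedBall.prod measurableSet_closedBall),
        Measure.volume_eq_prod, Measure.prod_prod, vol_cb _ (by norm_num), ← ENNReal.ofReal_mul (by positivity),
        ← ENNReal.ofReal_mul (by positivity)]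
      apply le_of_eq
      congr 1
      ring
    · rw [Set.indicator_of_notMem hc]
      exact zero_le
  refine le_trans ?_ (lintegral_mono hsl)
  rw [lintegral_indicator_const (measurableSet_closedBall.diff measurableSet_ball), hann,
    ← ENNReal.ofReal_mul (by positivity)]
  apply le_of_eq
  congr 1
  ring

theorem finite {δ : ℝ} : volume (Mat δ) ≠ ⊤ := by
  have hsub : Mat δ ⊆ Metric.closedBall (0 : ℂ) 1 ×ˢ (Metric.closedBall (0 : ℂ) 1 ×ˢ
      (Metric.closedBall (0 : ℂ) 1 ×ˢ Metric.closedBall (0 : ℂ) 1)) := by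
    rintro m ⟨h1, h2, h3, h4, -⟩
    exact ⟨by rwa [mem_closedBall_zero_iff], by rwa [mem_closedBall_zero_iff],
      by rwa [mem_closedBall_zero_iff], by rwa [mem_closedBall_zero_iff]⟩
  apply ne_top_of_le_ne_top _ (measure_mono hsub)
  rw [Measure.volume_eq_prod, Measure.prod_prod, Measure.volume_eq_prod, Measure.prod_prod,
    Measure.volume_eq_prod, Measure.prod_prod, vol_cb _ zero_le_one]
  exact ENNReal.mul_ne_top ENNReal.ofReal_ne_top (ENNReal.mul_ne_top ENNReal.ofReal_ne_top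
    (ENNReal.mul_ne_top ENNReal.ofReal_ne_top ENNReal.ofReal_ne_top))

theorem ratio {P Q : ℂ[X]} {D : ℕ} (hD : 1 ≤ D) (hdeg : D = max P.natDegree Q.natDegree)
    (hcop : IsCoprime P Q) {δ : ℝ} (hδ : 0 < δ) (hδ1 : δ ≤ 1) :
    volume {m | m ∈ Mat δ ∧ ¬ HM P Q m} ≤
      ENNReal.ofReal (55000 * D ^ 2 * δ) * volume (Mat δ) := by
  have hpi := Real.pi_pos
  refine (upper hD hdeg hcop hδ).trans (le_trans ?_ (mul_le_mul' le_rfl (lower hδ hδ1)))
  rw [← ENNReal.ofReal_mul (by positivity)]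
  apply ENNReal.ofReal_le_ofReal
  have h1 : 0 ≤ Real.pi ^ 4 * D ^ 2 * δ ^ 3 := by positivity
  nlinarith

/-! ### a hyperbolic map at bounded distance -/

theorem hyp_smul {P Q : ℂ[X]} {t : ℂ} (ht : t ≠ 0) (h : Hyp P Q) : Hyp (C t * P) (C t * Q) := by
  obtain ⟨hcop, f, hf1, hf2, hf3⟩ := h
  have hu : IsUnit (C t : ℂ[X]) := isUnit_C.2 ht.isUnit
  refine ⟨(isCoprime_mul_unit_left hu P Q).2 hcop, f, hf1, fun z hz => ?_, hf3⟩
  rw [eval_mul, eval_C] at hz
  have hz' : Q.eval z ≠ 0 := right_ne_zero_of_mul hz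
  rw [hf2 z hz', eval_mul, eval_mul, eval_C, mul_div_mul_left _ _ ht]

theorem exists_hyp {P Q : ℂ[X]} {D : ℕ} (hD : 1 ≤ D) (hdeg : D = max P.natDegree Q.natDegree)
    (hcop : IsCoprime P Q) : ∃ a b c e : ℂ, a * e - b * c = 1 ∧ ‖a‖ ≤ 14 * D ∧ ‖b‖ ≤ 14 * D ∧
      ‖c‖ ≤ 14 * D ∧ ‖e‖ ≤ 14 * D ∧ Hyp (C a * P + C b * Q) (C c * P + C e * Q) := by
  have hpi := Real.pi_pos
  have hDR : (1 : ℝ) ≤ D := by exact_mod_cast hD
  have hD0 : (0 : ℝ) < D := by linarith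
  obtain ⟨δ, hδd⟩ : ∃ δ : ℝ, δ = 1 / (169 * D ^ 2) := ⟨_, rfl⟩
  have hδ : 0 < δ := by rw [hδd]; positivity
  obtain ⟨ρ, r, hρ, hr, h16, harea⟩ := area hD hdeg hcop false hδ
  have h1 := harea 1 one_ne_zero
  obtain ⟨y, hy1, hy2⟩ : ∃ y : ℂ × ℂ, y ∈ Metric.closedBall (0 : ℂ) 1 ×ˢ Metric.closedBall (0 : ℂ) 1 ∧
      (1, y) ∉ Bad (crv P Q D) (rv false D P) (rv false D Q) ρ (2 * D * r) := by
    by_contra hcon
    push Not at hcon
    have hsub : Metric.closedBall (0 : ℂ) 1 ×ˢ Metric.closedBall (0 : ℂ) 1 ⊆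
        {y : ℂ × ℂ | ‖y.1‖ ≤ ‖(1 : ℂ)‖ ∧ ‖y.2‖ ≤ ‖(1 : ℂ)‖ ∧ (1, y) ∈
          Bad (crv P Q D) (rv false D P) (rv false D Q) ρ (2 * D * r)} := by
      intro y hy
      refine ⟨?_, ?_, hcon y hy⟩
      · rw [norm_one, ← mem_closedBall_zero_iff]; exact hy.1
      · rw [norm_one, ← mem_closedBall_zero_iff]; exact hy.2
    have h2 := (measure_mono hsub).trans h1
    rw [Measure.volume_eq_prod, Measure.prod_prod, vol_cb _ zero_le_one,
      ← ENNReal.ofReal_mul (by positivity), ENNReal.ofReal_le_ofReal_iff (by positivity)] at h2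
    have e1 : 167 * (D : ℝ) ^ 2 * δ = 167 / 169 := by rw [hδd]; field_simp
    rw [e1, norm_one] at h2
    have : 0 < Real.pi ^ 2 := by positivity
    nlinarith
  obtain ⟨e, a⟩ := y
  obtain ⟨he, ha⟩ := hy1
  rw [mem_closedBall_zero_iff] at he ha
  simp only at he ha
  have hδc : ((δ : ℝ) : ℂ) ≠ 0 := by exact_mod_cast hδ.ne'
  have hdet : a * e - (a * e - (δ : ℂ)) * 1 = δ := by ring
  have hδn : ‖((δ : ℝ) : ℂ)‖ = δ := by rw [Complex.norm_real, Real.norm_eq_abs, abs_of_pos hδ]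
  have hH : Hyp (C a * P + C (a * e - (δ : ℂ)) * Q) (C 1 * P + C e * Q) :=
    crit' hD hdeg hcop false (a := a) (b := a * e - (δ : ℂ)) (c := 1) (e := e) one_ne_zero
      (by rw [hdet]; exact hδc) hρ hr (by rw [hdet, hδn]; exact h16) hy2
  obtain ⟨t, ht⟩ : ∃ t : ℂ, t = ((13 * D : ℝ) : ℂ) := ⟨_, rfl⟩
  have htn : ‖t‖ = 13 * D := by
    rw [ht, Complex.norm_real, Real.norm_eq_abs, abs_of_pos (by positivity)]
  have ht0 : t ≠ 0 := norm_pos_iff.1 (by rw [htn]; positivity)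
  have htt : t ^ 2 * (δ : ℂ) = 1 := by
    rw [ht, hδd]
    push_cast
    have : (D : ℂ) ≠ 0 := by exact_mod_cast hD0.ne'
    field_simp
    norm_num
  have hb : ‖a * e - (δ : ℂ)‖ ≤ 1 + δ := by
    refine (norm_sub_le _ _).trans ?_
    rw [hδn, norm_mul]
    have := norm_nonneg a
    have := norm_nonneg e
    nlinarith
  refine ⟨t * a, t * (a * e - (δ : ℂ)), t, t * e, ?_, ?_, ?_, ?_, ?_, ?_⟩
  · linear_combination htt
  · rw [norm_mul, htn]; nlinarith
  · rw [norm_mul, htn]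
    have h3 : 13 * (D : ℝ) * δ ≤ 1 := by
      rw [hδd, mul_one_div, div_le_one (by positivity)]
      nlinarith
    have h4 : 13 * (D : ℝ) * ‖a * e - (δ : ℂ)‖ ≤ 13 * D * (1 + δ) :=
      mul_le_mul_of_nonneg_left hb (by positivity)
    nlinarith
  · rw [htn]; nlinarith
  · rw [norm_mul, htn]; nlinarith
  · have h5 := hyp_smul ht0 hH
    have e1 : C t * (C a * P + C (a * e - (δ : ℂ)) * Q) =
        C (t * a) * P + C (t * (a * e - (δ : ℂ))) * Q := by
      rw [C_mul, C_mul]; ring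
    have e2 : C t * (C 1 * P + C e * Q) = C t * P + C (t * e) * Q := by
      rw [C_mul, C_1]; ring
    rw [e1, e2] at h5
    exact h5

end Pool.Agent.Y765.PC
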